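import Pool.Agent.H883R2.ISP.KEd

set_option autoImplicit false
open Filter Topology
open scoped ComplexOrder InnerProductSpace

namespace Pool.Agent.H98R2.RR
open Pool.H711R2

theorem FIB_E2_mem (h1 : St_BAS1) {H : Type} [NormedAddCommGroup H] [InnerProductSpace ℂ H] [CompleteSpace H]
    {M : VonNeumannAlgebra H} {τ : (H →L[ℂ] H) →ₗ[ℂ] ℂ} (T : Tower M τ) (k : ℕ) {i j : ℕ}
    (hi : i < 2 * 64 ^ k) (hj : j < 2 * 64 ^ k) : T.E2 k i j ∈ T.B (k + 1) := by
  obtain ⟨-, -, hphi, -⟩ := h1 H M τ T k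
  have hpos : 0 < 64 ^ k := by positivity
  have hi2 : i / 64 ^ k < 2 := (Nat.div_lt_iff_lt_mul hpos).2 hi
  have hj2 : j / 64 ^ k < 2 := (Nat.div_lt_iff_lt_mul hpos).2 hj
  unfold Tower.E2
  exact mul_mem (T.B_mono k _ (T.e_mem k _ (Nat.mod_lt _ hpos) _ (Nat.mod_lt _ hpos)))
    (hphi _ (by omega) _ (by omega)).1

theorem FIB (h1 : St_BAS1) (h2 : St_BAS2) : St_FIB := by
  intro H _ _ _ M τ T k L hkL
  obtain ⟨-, -, -, -, -, -, hmul, hstar, -, -, htr, -⟩ := h2 H M τ T k
  have hE : ∀ i j : Fin (2 * 64 ^ k), T.E2 k i j ∈ T.B (k + 1) := fun i j =>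
    FIB_E2_mem h1 T k i.2 j.2
  refine
    { trc := T.tr
      faithful := T.faithful
      E_mem := fun i j => T.B_sub _ _ (hE i j)
      d_mem := fun s => T.B_sub _ _ (T.d_mem k L hkL s s.2)
      mul := ?_
      star' := fun i j => hstar i i.2 j j.2
      d_star := fun s => (T.d_proj k L hkL s s.2 s s.2).1
      d_mul := ?_
      d_sum := ?_
      comm := fun i j s => (T.d_comm k L hkL _ (hE i j) s s.2).symm
      w_pos := by positivity
      trE := ?_ }
  · intro i j l r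
    rw [hmul i i.2 j j.2 l l.2 r r.2]
    by_cases h : j = l
    · rw [if_pos h, if_pos (by rw [h])]
    · rw [if_neg h, if_neg (fun h' => h (Fin.ext h'))]
  · intro s t
    rw [(T.d_proj k L hkL s s.2 t t.2).2]
    by_cases h : s = t
    · rw [if_pos h, if_pos (by rw [h])]
    · rw [if_neg h, if_neg (fun h' => h (Fin.ext h'))]
  · have h := T.d_sum k L hkL
    rw [Finset.sum_range] at h
    exact h
  · intro i s
    rw [htr i i.2 L hkL s s.2]
    push_cast
    rfl

end Pool.Agent.H98R2.RR
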