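import Pool.Agent.H883R2.ISP.KEe

set_option autoImplicit false
open Filter Topology
open scoped ComplexOrder InnerProductSpace

namespace Pool.Agent.H98R2.RR
open Pool.H711R2

section KE1aux

variable {H : Type} [NormedAddCommGroup H] [InnerProductSpace ℂ H] [CompleteSpace H]
variable {M : VonNeumannAlgebra H} {τ : (H →L[ℂ] H) →ₗ[ℂ] ℂ}

/-- constant fibres -/
theorem KE1_const {m N : ℕ} {w : ℝ} {E : Fin m → Fin m → (H →L[ℂ] H)}
    {d : Fin N → (H →L[ℂ] H)} (hF : Fib M τ m N w E d) (A : Matrix (Fin m) (Fin m) ℂ) :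
    pim E d (fun _ => A) = ∑ i, ∑ j, A i j • E i j := by
  unfold pim
  rw [Finset.sum_comm]
  refine Finset.sum_congr rfl fun i _ => ?_
  rw [Finset.sum_comm]
  refine Finset.sum_congr rfl fun j _ => ?_
  rw [← Finset.smul_sum, ← Finset.mul_sum, hF.d_sum, mul_one]

theorem KE1_range {β : Type} [AddCommMonoid β] (n m : ℕ) (h : n ≤ m) (g : ℕ → β) :
    ∑ i : Fin m, (if (i : ℕ) < n then g i else 0) = ∑ i ∈ Finset.range n, g i := by
  rw [Fin.sum_univ_eq_sum_range (fun i => if i < n then g i else 0) m]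
  rw [← Finset.sum_filter]
  refine Finset.sum_congr ?_ fun _ _ => rfl
  ext i
  simp only [Finset.mem_filter, Finset.mem_range]
  omega

theorem KE1_shift {m : ℕ} (g : ℕ → ℕ → (H →L[ℂ] H)) :
    ∑ i : Fin m, ∑ j : Fin m, (shiftM m i j) • g i j =
      ∑ i ∈ Finset.range (m - 1), g (i + 1) i := by
  rw [Finset.sum_comm]
  have h1 : ∀ j : Fin m, ∑ i : Fin m, (shiftM m i j) • g i j =
      if (j : ℕ) < m - 1 then g (j + 1) j else 0 := by
    intro j
    split_ifs with hj
    · have hj' : (j : ℕ) + 1 < m := by omega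
      rw [Finset.sum_eq_single (⟨(j : ℕ) + 1, hj'⟩ : Fin m)]
      · simp [shiftM]
      · intro i _ hi
        have : ¬ (i : ℕ) = (j : ℕ) + 1 := fun h => hi (Fin.ext h)
        simp [shiftM, this]
      · intro h
        exact absurd (Finset.mem_univ _) h
    · refine Finset.sum_eq_zero fun i _ => ?_
      have : ¬ (i : ℕ) = (j : ℕ) + 1 := by
        have := i.2
        omega
      simp [shiftM, this]
  rw [Finset.sum_congr rfl fun j _ => h1 j]
  exact KE1_range (m - 1) m (by omega) fun j => g (j + 1) j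

theorem KE1_dg {m : ℕ} (p : Fin m → Prop) [DecidablePred p]
    (g : Fin m → Fin m → (H →L[ℂ] H)) :
    ∑ i : Fin m, ∑ j : Fin m, (dgM p i j) • g i j = ∑ i : Fin m, if p i then g i i else 0 := by
  refine Finset.sum_congr rfl fun i _ => ?_
  rw [Finset.sum_eq_single i]
  · by_cases h : p i
    · simp [dgM, h]
    · simp [dgM, h]
  · intro j _ hj
    simp [dgM, hj.symm]
  · intro h
    exact absurd (Finset.mem_univ _) h

end KE1aux

theorem KE1 (h0 : St_BAS1) (h1 : St_BAS2) (h2 : St_PI1) (h3 : St_FIB) : St_KE1 := by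
  intro H _ _ _ M τ T k L C hC
  obtain ⟨hL, hCm⟩ := hC
  have hF := h3 H M τ T k L hL
  obtain ⟨q1, q2, _, _, _, q3, _, _, q4, q5, _, _, _, _⟩ := h1 H M τ T k
  set E : Fin (2 * 64 ^ k) → Fin (2 * 64 ^ k) → (H →L[ℂ] H) := fun i j => T.E2 k i j with hE
  set d : Fin (64 ^ (L - k - 1)) → (H →L[ℂ] H) := fun s => T.d k L s with hd
  obtain ⟨p1, p2, p3, p4, p5, p6, p7, p8⟩ := h2 H M τ _ _ _ E d hF
  have hpos : 0 < 64 ^ k := by positivity
  -- injectivity
  have hinj : ∀ A B, pim E d A = pim E d B → A = B := by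
    intro A B hAB
    have h5 := p8 (fun s => A s - B s) (by rw [← p4, hAB, sub_self])
    funext s
    exact sub_eq_zero.1 (congrFun h5 s)
  -- `q = pim 1`
  have hq : T.q k = pim E d (fun _ => 1) := by
    rw [p7, ← q4, ← Fin.sum_univ_eq_sum_range (fun i => T.E2 k i i) (2 * 64 ^ k)]
  have hqq : T.q k * T.q k = T.q k := q1.isIdempotentElem
  have hqs : star (T.q k) = T.q k := q1.isSelfAdjoint
  -- the shift
  have hJ : T.J2 k = pim E d (fun _ => shiftM (2 * 64 ^ k)) := by
    rw [KE1_const hF, q3]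
    exact (KE1_shift (fun i j => T.E2 k i j)).symm
  have h00 : T.phi k 0 0 = pim E d (fun _ => dgM (fun i : Fin (2 * 64 ^ k) => (i : ℕ) < 64 ^ k)) := by
    rw [KE1_const hF, KE1_dg, ← q5]
    exact (KE1_range (64 ^ k) (2 * 64 ^ k) (by omega) fun i => T.E2 k i i).symm
  have hdq : ∀ s < 64 ^ (L - k - 1), T.d k L s * T.q k = T.q k * T.d k L s := fun s hs =>
    T.d_comm k L hL _ q2 s hs
  refine ⟨?_, ?_, hq, h00, ?_, ?_, ?_⟩
  · intro Q hQC hQ
    obtain ⟨a, t, rfl⟩ := (hCm Q).1 hQC
    set Qm : Fin (64 ^ (L - k - 1)) → Matrix (Fin (2 * 64 ^ k)) (Fin (2 * 64 ^ k)) ℂ :=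
      fun s => Matrix.of fun i j => a s i j with hQm
    have hcw : T.cw k L a t = pim E d Qm + t • (1 - T.q k) := by
      unfold Tower.cw pim
      congr 1
      rw [← Fin.sum_univ_eq_sum_range (fun s => ∑ i ∈ Finset.range (2 * 64 ^ k),
        ∑ j ∈ Finset.range (2 * 64 ^ k), a s i j • (T.E2 k i j * T.d k L s)) (64 ^ (L - k - 1))]
      refine Finset.sum_congr rfl fun s _ => ?_
      rw [← Fin.sum_univ_eq_sum_range (fun i =>
        ∑ j ∈ Finset.range (2 * 64 ^ k), a s i j • (T.E2 k i j * T.d k L s)) (2 * 64 ^ k)]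
      refine Finset.sum_congr rfl fun i _ => ?_
      rw [← Fin.sum_univ_eq_sum_range (fun j => a s i j • (T.E2 k i j * T.d k L s)) (2 * 64 ^ k)]
      rfl
    have hl : T.q k * T.cw k L a t = pim E d Qm := by
      rw [hcw, mul_add, mul_smul_comm, mul_sub, mul_one, hqq, sub_self, smul_zero, add_zero, hq,
        p2]
      congr 1
      funext s
      exact one_mul _
    have hr : T.cw k L a t * T.q k = pim E d Qm := by
      rw [hcw, add_mul, smul_mul_assoc, sub_mul, one_mul, hqq, sub_self, smul_zero, add_zero, hq,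
        p2]
      congr 1
      funext s
      exact mul_one _
    have hQQ : T.cw k L a t * T.cw k L a t = T.cw k L a t := hQ.isIdempotentElem
    have hQs : star (T.cw k L a t) = T.cw k L a t := hQ.isSelfAdjoint
    refine ⟨Qm, ?_, ?_, hl, hr⟩
    · have h5 : pim E d (fun s => Qm s * Qm s) = pim E d Qm := by
        rw [← p2]
        nth_rewrite 1 [← hr]
        rw [← hl, mul_assoc, ← mul_assoc (T.q k) (T.q k), hqq, hl, ← hr, ← mul_assoc, hQQ]
      intro s
      exact congrFun (hinj _ _ h5) s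
    · have h5 : pim E d (fun s => (Qm s).conjTranspose) = pim E d Qm := by
        rw [← p5]
        nth_rewrite 1 [← hl]
        rw [star_mul, hqs, hQs, hr]
      intro s
      exact congrFun (hinj _ _ h5) s
  · intro j
    induction j with
    | zero =>
      rw [pow_zero, one_mul, hq]
      congr 1
    | succ j ih =>
      rw [pow_succ', mul_assoc, ih, hJ, p2]
      congr 1
      funext s
      exact (pow_succ' _ _).symm
  · have h5 : T.phi k 1 1 = T.q k - T.phi k 0 0 := by
      unfold Tower.q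
      abel
    rw [h5, h00, hq, p4]
    congr 1
    funext s
    ext i j
    by_cases hij : i = j
    · subst hij
      by_cases hi : (i : ℕ) < 64 ^ k
      · have hi' : ¬ 64 ^ k ≤ (i : ℕ) := by omega
        simp [dgM, hi, hi']
      · have hi' : 64 ^ k ≤ (i : ℕ) := by omega
        simp [dgM, hi, hi']
    · simp [dgM, hij]
  · intro F hFs
    classical
    have h5 : pim E d (fun s => dgM (fun _ : Fin (2 * 64 ^ k) => (s : ℕ) ∈ F)) =
        ∑ s : Fin (64 ^ (L - k - 1)), if (s : ℕ) ∈ F then T.q k * T.d k L s else 0 := by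
      unfold pim
      refine Finset.sum_congr rfl fun s _ => ?_
      rw [KE1_dg (fun _ : Fin (2 * 64 ^ k) => (s : ℕ) ∈ F) (fun i j => E i j * d s)]
      split_ifs
      · rw [← Finset.sum_mul, ← p7, ← hq]
      · simp
    rw [h5, Fin.sum_univ_eq_sum_range (fun s => if s ∈ F then T.q k * T.d k L s else 0)
      (64 ^ (L - k - 1)), Finset.sum_mul, ← Finset.sum_filter]
    have h6 : (Finset.range (64 ^ (L - k - 1))).filter (fun s => s ∈ F) = F := by
      ext s
      rw [Finset.mem_filter]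
      exact ⟨fun h => h.2, fun h => ⟨hFs h, h⟩⟩
    rw [h6]
    exact Finset.sum_congr rfl fun s hs => hdq s (Finset.mem_range.1 (hFs hs))
  · intro F hFs
    have hlt : ∀ s ∈ F, s < 64 ^ (L - k - 1) := fun s hs => Finset.mem_range.1 (hFs hs)
    refine ⟨⟨?_, ?_⟩, ?_, ?_⟩
    · show (∑ s ∈ F, T.d k L s) * (∑ s ∈ F, T.d k L s) = ∑ s ∈ F, T.d k L s
      rw [Finset.sum_mul]
      refine Finset.sum_congr rfl fun s hs => ?_
      rw [Finset.mul_sum, Finset.sum_eq_single s]
      · rw [(T.d_proj k L hL s (hlt s hs) s (hlt s hs)).2, if_pos rfl]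
      · intro t ht hts
        rw [(T.d_proj k L hL s (hlt s hs) t (hlt t ht)).2, if_neg hts.symm]
      · intro h
        exact absurd hs h
    · show star (∑ s ∈ F, T.d k L s) = ∑ s ∈ F, T.d k L s
      rw [star_sum]
      exact Finset.sum_congr rfl fun s hs => (T.d_proj k L hL s (hlt s hs) s (hlt s hs)).1
    · exact sum_mem fun s hs => T.B_sub L _ (T.d_mem k L hL s (hlt s hs))
    · rw [Finset.sum_mul, Finset.mul_sum]
      exact Finset.sum_congr rfl fun s hs => hdq s (hlt s hs)

end Pool.Agent.H98R2.RR
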