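import Pool.Agent.H883R2.ISP.KEe

set_option autoImplicit false
open Filter Topology
open scoped ComplexOrder InnerProductSpace

/-! KE2: the chain of maps (helper634) -/

namespace Pool.Agent.H98R2.RR
open Pool.H711R2

section

variable {H : Type} [NormedAddCommGroup H] [InnerProductSpace ℂ H] [CompleteSpace H]
variable {M : VonNeumannAlgebra H} {τ : (H →L[ℂ] H) →ₗ[ℂ] ℂ}

private lemma KE2_mono {x P R : H →L[ℂ] H} {κ κ' ε ε' : ℝ} (h : Maps M τ x P R κ ε)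
    (h1 : κ ≤ κ') (h2 : ε ≤ ε') : Maps M τ x P R κ' ε' := by
  obtain ⟨P1, m, p, e, t, n⟩ := h
  exact ⟨P1, m, p, e, t.trans h1, n.trans h2⟩

end

theorem KE2 (h1 : St_MC) (h2 : St_MR) : St_KE2 := by
  intro H _ _ _ M τ hτ hf J hJ Q hQ W hW Wp hWp W' hW' pQ pW pWp pW' c δ κ hJc hc hδ hδ8 hκ
    hJW hWW htWp hsub htW' hQW' htQ
  have hn1 : ‖(1 : H →L[ℂ] H)‖ ≤ 1 := ContinuousLinearMap.norm_id_le
  have hone : (1 : H →L[ℂ] H) ∈ M := vn_one M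
  have nW' : ‖W'‖ ≤ 1 := pW'.norm_le
  -- (C)
  have hC : Maps M τ 1 W Q (16 * κ) δ := by
    refine ⟨W', hW', pW', hsub, by linarith, ?_⟩
    rw [one_mul]
    exact hQW'
  -- W' → Q
  have m1 : Maps M τ 1 W' Q 0 δ := by
    refine ⟨W', hW', pW', pW'.isIdempotentElem.eq, by simp, ?_⟩
    rw [one_mul]
    exact hQW'
  have m2 : Maps M τ 1 Q W' (0 + 18 * κ) (2 * δ) :=
    h2 H M τ hτ hf W' hW' Q hQ pW' pQ 0 (18 * κ) δ hδ (by linarith) m1 (by linarith)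
  -- (B)
  have hB : Maps M τ 1 Q W (18 * κ) (2 * δ) := by
    obtain ⟨P1, mP, pP, e, t, n⟩ := m2
    refine ⟨P1, mP, pP, e, by linarith, ?_⟩
    have e1 : (1 - W) * (1 - W') = 1 - W := by
      have : (1 - W) * (1 - W') = 1 - W - W' + W * W' := by noncomm_ring
      rw [this, hsub]
      abel
    have e2 : (1 - W) * (1 * P1) = (1 - W) * ((1 - W') * (1 * P1)) := by
      rw [← mul_assoc (1 - W) (1 - W') (1 * P1), e1]
    rw [e2]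
    have nW : ‖1 - W‖ ≤ 1 := pW.one_sub.norm_le
    calc ‖(1 - W) * ((1 - W') * (1 * P1))‖ ≤ ‖1 - W‖ * ‖(1 - W') * (1 * P1)‖ := norm_mul_le _ _
      _ ≤ 1 * (2 * δ) := mul_le_mul nW n (norm_nonneg _) (by norm_num)
      _ = 2 * δ := one_mul _
  -- J : W' → Wp
  have m3 : Maps M τ J W' Wp 0 δ := by
    refine ⟨W', hW', pW', pW'.isIdempotentElem.eq, by simp, ?_⟩
    have e1 : (1 - Wp) * (J * W') = ((1 - Wp) * (J * W)) * W' := by
      rw [mul_assoc, mul_assoc, hsub]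
    rw [e1]
    calc ‖((1 - Wp) * (J * W)) * W'‖ ≤ ‖(1 - Wp) * (J * W)‖ * ‖W'‖ := norm_mul_le _ _
      _ ≤ δ * 1 := mul_le_mul hJW nW' (norm_nonneg _) hδ
      _ = δ := mul_one _
  have m4 : Maps M τ (J * 1) Q Wp (0 + 18 * κ + 0) (‖J‖ * (2 * δ) + ‖(1 : H →L[ℂ] H)‖ * δ) :=
    h1 H M τ hτ hf 1 hone J hJ Q hQ W' hW' Wp hWp pQ pW' pWp _ _ _ _ (by linarith) hδ m2 m3
  have m4' : Maps M τ J Q Wp (18 * κ) (2 * c * δ + δ) := by
    rw [mul_one] at m4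
    refine KE2_mono m4 (by linarith) ?_
    have a1 : ‖J‖ * (2 * δ) ≤ c * (2 * δ) := mul_le_mul_of_nonneg_right hJc (by linarith)
    have a2 : ‖(1 : H →L[ℂ] H)‖ * δ ≤ 1 * δ := mul_le_mul_of_nonneg_right hn1 hδ
    linarith
  -- W → Wp → W
  have m5 : Maps M τ 1 W Wp 0 δ := by
    refine ⟨W, hW, pW, pW.isIdempotentElem.eq, by simp, ?_⟩
    rw [one_mul]
    exact hWW
  have m6 : Maps M τ 1 Wp W (0 + κ) (2 * δ) :=
    h2 H M τ hτ hf W hW Wp hWp pW pWp 0 κ δ hδ (by linarith) m5 htWp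
  have hcd : 0 ≤ 2 * c * δ + δ := by positivity
  have m7 : Maps M τ (1 * J) Q W (18 * κ + (0 + κ))
      (‖(1 : H →L[ℂ] H)‖ * (2 * c * δ + δ) + ‖J‖ * (2 * δ)) :=
    h1 H M τ hτ hf J hJ 1 hone Q hQ Wp hWp W hW pQ pWp pW _ _ _ _ hcd (by linarith) m4' m6
  have m7' : Maps M τ J Q W (19 * κ) (4 * c * δ + δ) := by
    rw [one_mul] at m7
    refine KE2_mono m7 (by linarith) ?_
    have a1 : ‖J‖ * (2 * δ) ≤ c * (2 * δ) := mul_le_mul_of_nonneg_right hJc (by linarith)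
    have a2 : ‖(1 : H →L[ℂ] H)‖ * (2 * c * δ + δ) ≤ 1 * (2 * c * δ + δ) :=
      mul_le_mul_of_nonneg_right hn1 hcd
    linarith
  have hcd2 : 0 ≤ 4 * c * δ + δ := by positivity
  have m8 : Maps M τ (1 * J) Q Q (19 * κ + 16 * κ)
      (‖(1 : H →L[ℂ] H)‖ * (4 * c * δ + δ) + ‖J‖ * δ) :=
    h1 H M τ hτ hf J hJ 1 hone Q hQ W hW Q hQ pQ pW pQ _ _ _ _ hcd2 hδ m7' hC
  refine ⟨?_, hB, hC⟩
  rw [one_mul] at m8
  refine KE2_mono m8 (by linarith) ?_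
  have a1 : ‖J‖ * δ ≤ c * δ := mul_le_mul_of_nonneg_right hJc hδ
  have a2 : ‖(1 : H →L[ℂ] H)‖ * (4 * c * δ + δ) ≤ 1 * (4 * c * δ + δ) :=
    mul_le_mul_of_nonneg_right hn1 hcd2
  have a3 : δ ≤ c * δ := by nlinarith
  linarith

end Pool.Agent.H98R2.RR
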