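import Pool.Agent.H883R2.ISP.KEe

set_option autoImplicit false
open Filter Topology
open scoped ComplexOrder InnerProductSpace

namespace Pool.Agent.H98R2.RR
open Pool.H711R2

lemma KE3_tr {m : ℕ} (P : ℕ → Prop) (a b : ℕ) (hP : ∀ x, (x < m ∧ P x) ↔ (a ≤ x ∧ x < b)) :
    (dgM (fun i : Fin m => P i)).trace = ((b - a : ℕ) : ℂ) := by
  classical
  have h : (Finset.Ico a b).card
      = (Finset.univ.filter (fun i : Fin m => P i)).card := by
    symm
    refine Finset.card_bij (fun (i : Fin m) _ => (i : ℕ)) ?_ ?_ ?_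
    · intro x hx
      simp only [Finset.mem_filter, Finset.mem_univ, true_and] at hx
      rw [Finset.mem_Ico]
      exact (hP x).1 ⟨x.2, hx⟩
    · intro a _ b _ hab; exact Fin.ext hab
    · intro x hx
      rw [Finset.mem_Ico] at hx
      obtain ⟨h1, h2⟩ := (hP x).2 hx
      exact ⟨⟨x, h1⟩, by simpa using h2, rfl⟩
  rw [Nat.card_Ico] at h
  rw [h, Matrix.trace, Finset.card_filter]
  push_cast
  apply Finset.sum_congr rfl
  intro i _
  simp [dgM, Matrix.diag]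

lemma KE3_re {m : ℕ} (P : ℕ → Prop) (a b : ℕ) (hP : ∀ x, (x < m ∧ P x) ↔ (a ≤ x ∧ x < b)) :
    (dgM (fun i : Fin m => P i)).trace.re = ((b - a : ℕ) : ℝ) := by
  rw [KE3_tr P a b hP]; simp

lemma KE3_one (n j : ℕ) (hj : j ≤ 2 * n) :
    ((dgM (fun i : Fin (2 * n) => j ≤ (i : ℕ) ∧ ¬ j ≤ n)).trace.re +
      (dgM (fun i : Fin (2 * n) => j ≤ (i : ℕ) ∧ (i : ℕ) < n)).trace.re ≤
      (dgM (fun i : Fin (2 * n) => j ≤ (i : ℕ) ∧ n ≤ (i : ℕ))).trace.re) ∧
    ((dgM (fun i : Fin (2 * n) => j ≤ n ∧ (i : ℕ) < n)).trace.re ≤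
      (dgM (fun i : Fin (2 * n) => j ≤ (i : ℕ) ∧ n ≤ (i : ℕ))).trace.re) ∧
    ((dgM (fun i : Fin (2 * n) => j ≤ (i : ℕ))).trace.re =
      (dgM (fun i : Fin (2 * n) => j ≤ (i : ℕ) ∧ ¬ j ≤ n)).trace.re +
      (dgM (fun i : Fin (2 * n) => j ≤ (i : ℕ) ∧ j ≤ n)).trace.re) := by
  by_cases h : j ≤ n
  · rw [KE3_re (m := 2 * n) (fun i => j ≤ i ∧ ¬ j ≤ n) 0 0 (by intro x; omega),
      KE3_re (m := 2 * n) (fun i => j ≤ i ∧ i < n) j n (by intro x; omega),
      KE3_re (m := 2 * n) (fun i => j ≤ i ∧ n ≤ i) n (2 * n) (by intro x; omega),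
      KE3_re (m := 2 * n) (fun i => j ≤ n ∧ i < n) 0 n (by intro x; omega),
      KE3_re (m := 2 * n) (fun i => j ≤ i) j (2 * n) (by intro x; omega),
      KE3_re (m := 2 * n) (fun i => j ≤ i ∧ j ≤ n) j (2 * n) (by intro x; omega)]
    refine ⟨?_, ?_, ?_⟩
    · exact_mod_cast (by omega : 0 - 0 + (n - j) ≤ 2 * n - n)
    · exact_mod_cast (by omega : n - 0 ≤ 2 * n - n)
    · exact_mod_cast (by omega : 2 * n - j = 0 - 0 + (2 * n - j))
  · rw [KE3_re (m := 2 * n) (fun i => j ≤ i ∧ ¬ j ≤ n) j (2 * n) (by intro x; omega),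
      KE3_re (m := 2 * n) (fun i => j ≤ i ∧ i < n) 0 0 (by intro x; omega),
      KE3_re (m := 2 * n) (fun i => j ≤ i ∧ n ≤ i) j (2 * n) (by intro x; omega),
      KE3_re (m := 2 * n) (fun i => j ≤ n ∧ i < n) 0 0 (by intro x; omega),
      KE3_re (m := 2 * n) (fun i => j ≤ i) j (2 * n) (by intro x; omega),
      KE3_re (m := 2 * n) (fun i => j ≤ i ∧ j ≤ n) 0 0 (by intro x; omega)]
    refine ⟨?_, ?_, ?_⟩
    · exact_mod_cast (by omega : (2 * n - j) + (0 - 0) ≤ 2 * n - j)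
    · exact_mod_cast (by omega : 0 - 0 ≤ 2 * n - j)
    · exact_mod_cast (by omega : 2 * n - j = (2 * n - j) + (0 - 0))

lemma KE3_cs (n N : ℕ) (r : ℕ → Fin N → ℕ) (σ : Fin N → ℕ) (κ : ℝ) (hn : 0 < n) (hN : 0 < N)
    (hκ : 0 ≤ κ) (h1 : ∀ s, σ s ^ 2 ≤ ∑ j ∈ Finset.range (2 * n), r j s)
    (h2 : ∀ j < 2 * n, (1 / (32 * n * N) : ℝ) * ∑ s, (r j s : ℝ) ≤ 35 * κ) :
    (1 / (32 * n * N) : ℝ) * ∑ s, (σ s : ℝ) ≤ 2 * Real.sqrt κ := by
  have hn' : (0:ℝ) < n := by exact_mod_cast hn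
  have hN' : (0:ℝ) < N := by exact_mod_cast hN
  have hw : (0:ℝ) < 1 / (32 * n * N) := by positivity
  set w : ℝ := 1 / (32 * n * N) with hwd
  have hwn : w * (32 * n * N) = 1 := by rw [hwd]; field_simp
  have hA : (∑ s, (σ s : ℝ)) ^ 2 ≤ N * ∑ s, (σ s : ℝ) ^ 2 := by
    have := sq_sum_le_card_mul_sum_sq (s := (Finset.univ : Finset (Fin N))) (f := fun s => (σ s : ℝ))
    simpa using this
  have hB : ∑ s, (σ s : ℝ) ^ 2 ≤ ∑ j ∈ Finset.range (2 * n), ∑ s, (r j s : ℝ) := by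
    rw [Finset.sum_comm]
    apply Finset.sum_le_sum
    intro s _
    have := h1 s
    have h3 : ((σ s ^ 2 : ℕ) : ℝ) ≤ ((∑ j ∈ Finset.range (2 * n), r j s : ℕ) : ℝ) := by
      exact_mod_cast this
    push_cast at h3
    exact h3
  have hC : w * ∑ j ∈ Finset.range (2 * n), ∑ s, (r j s : ℝ) ≤ 2 * n * (35 * κ) := by
    rw [Finset.mul_sum]
    calc _ ≤ ∑ j ∈ Finset.range (2 * n), (35 * κ) :=
          Finset.sum_le_sum (fun j hj => h2 j (Finset.mem_range.1 hj))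
      _ = _ := by simp
  have hD : w * ∑ s, (σ s : ℝ) ^ 2 ≤ 2 * n * (35 * κ) :=
    le_trans (mul_le_mul_of_nonneg_left hB hw.le) hC
  have hE : (w * ∑ s, (σ s : ℝ)) ^ 2 ≤ (2 * Real.sqrt κ) ^ 2 := by
    have e1 : (w * ∑ s, (σ s : ℝ)) ^ 2 = w ^ 2 * (∑ s, (σ s : ℝ)) ^ 2 := by ring
    have e2 : (2 * Real.sqrt κ) ^ 2 = 4 * κ := by
      rw [mul_pow, Real.sq_sqrt hκ]; ring
    rw [e1, e2]
    calc w ^ 2 * (∑ s, (σ s : ℝ)) ^ 2 ≤ w ^ 2 * (N * ∑ s, (σ s : ℝ) ^ 2) :=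
          mul_le_mul_of_nonneg_left hA (by positivity)
      _ = (w * N) * (w * ∑ s, (σ s : ℝ) ^ 2) := by ring
      _ ≤ (w * N) * (2 * n * (35 * κ)) := mul_le_mul_of_nonneg_left hD (by positivity)
      _ = (w * (32 * n * N)) * (70 / 32 * κ) := by ring
      _ = 70 / 32 * κ := by rw [hwn, one_mul]
      _ ≤ 4 * κ := by nlinarith
  have hF : 0 ≤ w * ∑ s, (σ s : ℝ) := mul_nonneg hw.le (Finset.sum_nonneg (fun s _ => by positivity))
  have hG : 0 ≤ 2 * Real.sqrt κ := by positivity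
  exact (sq_le_sq₀ hF hG).1 hE

lemma KE3_rank (m : ℕ) (Q : Matrix (Fin m) (Fin m) ℂ) (hQ : Q * Q = Q) :
    Q.trace = (Q.rank : ℂ) := by
  have h1 : IsIdempotentElem (Matrix.toLin' Q) := by
    unfold IsIdempotentElem
    rw [Module.End.mul_eq_comp, ← Matrix.toLin'_mul, hQ]
  have h2 := (LinearMap.IsIdempotentElem.isProj_range _ h1).trace
  rw [Matrix.trace_toLin'_eq] at h2
  rw [h2]
  rfl

theorem KE3 : St_KE3 := by
  classical
  refine ⟨?_, ?_, ?_, ?_, ?_⟩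
  · intro n N j hj
    refine ⟨?_, ?_, ?_⟩
    · rw [← Finset.sum_add_distrib]
      exact Finset.sum_le_sum (fun s _ => (KE3_one n (j s) (hj s)).1)
    · exact Finset.sum_le_sum (fun s _ => (KE3_one n (j s) (hj s)).2.1)
    · rw [← Finset.sum_add_distrib]
      exact Finset.sum_congr rfl (fun s _ => (KE3_one n (j s) (hj s)).2.2)
  · intro n N r σ κ hn hN hκ h1 h2
    exact KE3_cs n N r σ κ hn hN hκ h1 h2
  · intro m Q hQ
    have hr : Q.rank ≤ m := by simpa using Q.rank_le_width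
    refine ⟨KE3_rank m Q hQ, hr, ?_⟩
    have : coordM m (m - Q.rank) = dgM (fun i : Fin m => m - Q.rank ≤ (i : ℕ)) := by
      ext i i'; simp [coordM, dgM]
    rw [this, KE3_tr (m := m) (fun i => m - Q.rank ≤ i) (m - Q.rank) m (by intro x; omega)]
    congr 1; omega
  · intro m p p'
    constructor
    · ext i j
      rw [Matrix.mul_apply, Finset.sum_eq_single i]
      · unfold dgM
        by_cases h : i = j
        · subst h
          by_cases h1 : p i <;> by_cases h2 : p' i <;> simp [h1, h2]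
        · simp [h]
      · intro b _ hb
        simp [dgM, Ne.symm hb]
      · intro h; exact absurd (Finset.mem_univ _) h
    · ext i j
      rw [Matrix.conjTranspose_apply]
      unfold dgM
      by_cases h : i = j
      · subst h; by_cases h1 : p i <;> simp [h1]
      · simp [h, Ne.symm h]
  · intro m j
    ext i i'; simp [coordM, dgM]

end Pool.Agent.H98R2.RR

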