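import Pool.Agent.H98R2.RR.Kill

set_option autoImplicit false
open Filter Topology
open scoped ComplexOrder InnerProductSpace

namespace Pool.Agent.H98R2.RR
open Pool.H711R2

/-- `x` maps `P` into `R` up to a part of trace `κ` and up to `ε` in norm. -/
def Maps {H : Type} [NormedAddCommGroup H] [InnerProductSpace ℂ H] [CompleteSpace H]
    (M : VonNeumannAlgebra H) (τ : (H →L[ℂ] H) →ₗ[ℂ] ℂ) (x P R : H →L[ℂ] H) (κ ε : ℝ) : Prop :=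
  ∃ P1 ∈ M, IsStarProjection P1 ∧ P * P1 = P1 ∧ tr τ P - tr τ P1 ≤ κ ∧
    ‖(1 - R) * (x * P1)‖ ≤ ε

/-- MC: composition. -/
def St_MC : Prop :=
  ∀ (H : Type) [NormedAddCommGroup H] [InnerProductSpace ℂ H] [CompleteSpace H]
    (M : VonNeumannAlgebra H) (τ : (H →L[ℂ] H) →ₗ[ℂ] ℂ), IsNormalTrace M τ →
    (∀ x ∈ M, τ (star x * x) = 0 → x = 0) →
    ∀ x ∈ M, ∀ y ∈ M, ∀ P ∈ M, ∀ R ∈ M, ∀ Z ∈ M, IsStarProjection P → IsStarProjection R →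
    IsStarProjection Z → ∀ κ1 κ2 ε1 ε2 : ℝ, 0 ≤ ε1 → 0 ≤ ε2 → Maps M τ x P R κ1 ε1 →
    Maps M τ y R Z κ2 ε2 → Maps M τ (y * x) P Z (κ1 + κ2) (‖y‖ * ε1 + ‖x‖ * ε2)

/-- MR: reversal. -/
def St_MR : Prop :=
  ∀ (H : Type) [NormedAddCommGroup H] [InnerProductSpace ℂ H] [CompleteSpace H]
    (M : VonNeumannAlgebra H) (τ : (H →L[ℂ] H) →ₗ[ℂ] ℂ), IsNormalTrace M τ →
    (∀ x ∈ M, τ (star x * x) = 0 → x = 0) →
    ∀ P ∈ M, ∀ R ∈ M, IsStarProjection P → IsStarProjection R →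
    ∀ κ1 κ2 ε : ℝ, 0 ≤ ε → ε ≤ 1 / 2 → Maps M τ 1 P R κ1 ε → tr τ R ≤ tr τ P + κ2 →
    Maps M τ 1 R P (κ1 + κ2) (2 * ε)

/-- a fibred matrix algebra `⊕_{s < N} M_m(ℂ)` in `M`; every minimal projection has trace `w` -/
structure Fib {H : Type} [NormedAddCommGroup H] [InnerProductSpace ℂ H] [CompleteSpace H]
    (M : VonNeumannAlgebra H) (τ : (H →L[ℂ] H) →ₗ[ℂ] ℂ) (m N : ℕ) (w : ℝ)
    (E : Fin m → Fin m → (H →L[ℂ] H)) (d : Fin N → (H →L[ℂ] H)) : Prop where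
  trc : IsNormalTrace M τ
  faithful : ∀ x ∈ M, τ (star x * x) = 0 → x = 0
  E_mem : ∀ i j, E i j ∈ M
  d_mem : ∀ s, d s ∈ M
  mul : ∀ i j l r, E i j * E l r = if j = l then E i r else 0
  star' : ∀ i j, star (E i j) = E j i
  d_star : ∀ s, star (d s) = d s
  d_mul : ∀ s t, d s * d t = if s = t then d s else 0
  d_sum : ∑ s, d s = 1
  comm : ∀ i j s, E i j * d s = d s * E i j
  w_pos : 0 < w
  trE : ∀ i s, τ (E i i * d s) = (w : ℂ)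

/-- the embedding of `⊕_{s < N} M_m(ℂ)` -/
noncomputable def pim {H : Type} [NormedAddCommGroup H] [InnerProductSpace ℂ H] [CompleteSpace H]
    {m N : ℕ} (E : Fin m → Fin m → (H →L[ℂ] H)) (d : Fin N → (H →L[ℂ] H))
    (A : Fin N → Matrix (Fin m) (Fin m) ℂ) : H →L[ℂ] H :=
  ∑ s, ∑ i, ∑ j, A s i j • (E i j * d s)

/-- PI1: `pim` is a *-homomorphism, injective, with the right trace. -/
def St_PI1 : Prop :=
  ∀ (H : Type) [NormedAddCommGroup H] [InnerProductSpace ℂ H] [CompleteSpace H]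
    (M : VonNeumannAlgebra H) (τ : (H →L[ℂ] H) →ₗ[ℂ] ℂ) (m N : ℕ) (w : ℝ)
    (E : Fin m → Fin m → (H →L[ℂ] H)) (d : Fin N → (H →L[ℂ] H)), Fib M τ m N w E d →
    (∀ A, pim E d A ∈ M) ∧
    (∀ A B, pim E d A * pim E d B = pim E d (fun s => A s * B s)) ∧
    (∀ A B, pim E d A + pim E d B = pim E d (fun s => A s + B s)) ∧
    (∀ A B, pim E d A - pim E d B = pim E d (fun s => A s - B s)) ∧
    (∀ A, star (pim E d A) = pim E d (fun s => (A s).conjTranspose)) ∧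
    (∀ A, τ (pim E d A) = (w : ℂ) * ∑ s, (A s).trace) ∧
    (pim E d (fun _ => 1) = ∑ i, E i i) ∧
    (∀ A, pim E d A = 0 → A = fun _ => 0)

/-- PI2: rank defects of the fibres. -/
def St_PI2 : Prop :=
  ∀ (H : Type) [NormedAddCommGroup H] [InnerProductSpace ℂ H] [CompleteSpace H]
    (M : VonNeumannAlgebra H) (τ : (H →L[ℂ] H) →ₗ[ℂ] ℂ) (m N : ℕ) (w : ℝ)
    (E : Fin m → Fin m → (H →L[ℂ] H)) (d : Fin N → (H →L[ℂ] H)), Fib M τ m N w E d →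
    ∀ Q A : Fin N → Matrix (Fin m) (Fin m) ℂ, (∀ s, Q s * Q s = Q s) →
    (∀ s, (Q s).conjTranspose = Q s) → (∀ s, A s * Q s = A s) →
    ∀ P1 ∈ M, IsStarProjection P1 → pim E d Q * P1 = P1 → ∀ ε : ℝ, 0 < ε →
    ‖pim E d A * P1‖ ≤ ε →
    ∃ r : Fin N → ℕ, (∀ s, crank m (2 * ε) (Matrix.toEuclideanLin (A s)) (r s)) ∧
      w * ∑ s, (r s : ℝ) ≤ tr τ (pim E d Q) - tr τ P1

/-- PI3: from the fibres to the algebra. -/
def St_PI3 : Prop :=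
  ∀ (H : Type) [NormedAddCommGroup H] [InnerProductSpace ℂ H] [CompleteSpace H]
    (M : VonNeumannAlgebra H) (τ : (H →L[ℂ] H) →ₗ[ℂ] ℂ) (m N : ℕ) (w : ℝ)
    (E : Fin m → Fin m → (H →L[ℂ] H)) (d : Fin N → (H →L[ℂ] H)), Fib M τ m N w E d →
    ∀ Q B : Fin N → Matrix (Fin m) (Fin m) ℂ, (∀ s, Q s * Q s = Q s) →
    (∀ s, (Q s).conjTranspose = Q s) → ∀ (r : Fin N → ℕ) (θ : ℝ), 0 ≤ θ →
    (∀ s, crank m θ (Matrix.toEuclideanLin (B s * Q s)) (r s)) →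
    ∃ P1 ∈ M, IsStarProjection P1 ∧ pim E d Q * P1 = P1 ∧
      tr τ (pim E d Q) - tr τ P1 ≤ w * ∑ s, (r s : ℝ) ∧ ‖pim E d B * P1‖ ≤ θ

/-- FIB: the window of the tower is such an algebra. -/
def St_FIB : Prop :=
  ∀ (H : Type) [NormedAddCommGroup H] [InnerProductSpace ℂ H] [CompleteSpace H]
    (M : VonNeumannAlgebra H) (τ : (H →L[ℂ] H) →ₗ[ℂ] ℂ) (T : Tower M τ) (k L : ℕ), k + 1 ≤ L →
    Fib M τ (2 * 64 ^ k) (64 ^ (L - k - 1)) (1 / (32 * 64 ^ k * 64 ^ (L - k - 1)))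
      (fun i j => T.E2 k i j) (fun s => T.d k L s)

end Pool.Agent.H98R2.RR
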