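import Pool.Agent.H883R2.ISP.KEd

set_option autoImplicit false
open Filter Topology
open scoped ComplexOrder InnerProductSpace

namespace Pool.Agent.H98R2.RR
open Pool.H711R2

open Classical in
/-- diagonal 0/1 matrix -/
noncomputable def dgM {m : ℕ} (p : Fin m → Prop) : Matrix (Fin m) (Fin m) ℂ :=
  fun i j => if i = j ∧ p i then 1 else 0

/-- KE1: elements of `C` and the distinguished elements as `pim`. -/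
def St_KE1 : Prop :=
  ∀ (H : Type) [NormedAddCommGroup H] [InnerProductSpace ℂ H] [CompleteSpace H]
    (M : VonNeumannAlgebra H) (τ : (H →L[ℂ] H) →ₗ[ℂ] ℂ) (T : Tower M τ) (k L : ℕ)
    (C : Subalgebra ℂ (H →L[ℂ] H)), T.IsC k L C →
    (∀ Q ∈ C, IsStarProjection Q →
      ∃ Qm : Fin (64 ^ (L - k - 1)) → Matrix (Fin (2 * 64 ^ k)) (Fin (2 * 64 ^ k)) ℂ,
      (∀ s, Qm s * Qm s = Qm s) ∧ (∀ s, (Qm s).conjTranspose = Qm s) ∧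
      T.q k * Q = pim (fun i j => T.E2 k i j) (fun s => T.d k L s) Qm ∧
      Q * T.q k = pim (fun i j => T.E2 k i j) (fun s => T.d k L s) Qm) ∧
    (∀ j : ℕ, T.J2 k ^ j * T.q k =
      pim (fun i j => T.E2 k i j) (fun s : Fin (64 ^ (L - k - 1)) => T.d k L s)
        (fun _ => shiftM (2 * 64 ^ k) ^ j)) ∧
    (T.q k = pim (fun i j => T.E2 k i j) (fun s : Fin (64 ^ (L - k - 1)) => T.d k L s)
        (fun _ => (1 : Matrix (Fin (2 * 64 ^ k)) (Fin (2 * 64 ^ k)) ℂ))) ∧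
    (T.phi k 0 0 = pim (fun i j => T.E2 k i j) (fun s : Fin (64 ^ (L - k - 1)) => T.d k L s)
        (fun _ => dgM (fun i : Fin (2 * 64 ^ k) => (i : ℕ) < 64 ^ k))) ∧
    (T.phi k 1 1 = pim (fun i j => T.E2 k i j) (fun s : Fin (64 ^ (L - k - 1)) => T.d k L s)
        (fun _ => dgM (fun i : Fin (2 * 64 ^ k) => 64 ^ k ≤ (i : ℕ)))) ∧
    (∀ F ⊆ Finset.range (64 ^ (L - k - 1)), (∑ s ∈ F, T.d k L s) * T.q k =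
      pim (fun i j => T.E2 k i j) (fun s : Fin (64 ^ (L - k - 1)) => T.d k L s)
        (fun s => dgM (fun _ : Fin (2 * 64 ^ k) => (s : ℕ) ∈ F))) ∧
    (∀ F ⊆ Finset.range (64 ^ (L - k - 1)), IsStarProjection (∑ s ∈ F, T.d k L s) ∧
      (∑ s ∈ F, T.d k L s) ∈ M ∧
      (∑ s ∈ F, T.d k L s) * T.q k = T.q k * ∑ s ∈ F, T.d k L s)

/-- KE2: the chain of `Maps`. -/
def St_KE2 : Prop :=
  ∀ (H : Type) [NormedAddCommGroup H] [InnerProductSpace ℂ H] [CompleteSpace H]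
    (M : VonNeumannAlgebra H) (τ : (H →L[ℂ] H) →ₗ[ℂ] ℂ), IsNormalTrace M τ →
    (∀ x ∈ M, τ (star x * x) = 0 → x = 0) →
    ∀ J ∈ M, ∀ Q ∈ M, ∀ W ∈ M, ∀ Wp ∈ M, ∀ W' ∈ M, IsStarProjection Q → IsStarProjection W →
    IsStarProjection Wp → IsStarProjection W' → ∀ c δ κ : ℝ, ‖J‖ ≤ c → 1 ≤ c → 0 ≤ δ →
    δ ≤ 1 / 8 → 0 ≤ κ → ‖(1 - Wp) * (J * W)‖ ≤ δ → ‖(1 - Wp) * W‖ ≤ δ →
    tr τ Wp ≤ tr τ W + κ → W * W' = W' → tr τ W - 16 * κ ≤ tr τ W' →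
    ‖(1 - Q) * W'‖ ≤ δ → tr τ Q ≤ tr τ W + 2 * κ →
    Maps M τ J Q Q (35 * κ) (6 * c * δ) ∧ Maps M τ 1 Q W (18 * κ) (2 * δ) ∧
      Maps M τ 1 W Q (16 * κ) δ

/-- KE3: counting. -/
def St_KE3 : Prop :=
  (∀ (n N : ℕ) (j : Fin N → ℕ), (∀ s, j s ≤ 2 * n) →
    (∑ s, (dgM (fun i : Fin (2 * n) => j s ≤ (i : ℕ) ∧ ¬ j s ≤ n)).trace.re) +
      (∑ s, (dgM (fun i : Fin (2 * n) => j s ≤ (i : ℕ) ∧ (i : ℕ) < n)).trace.re) ≤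
      ∑ s, (dgM (fun i : Fin (2 * n) => j s ≤ (i : ℕ) ∧ n ≤ (i : ℕ))).trace.re ∧
    (∑ s, (dgM (fun i : Fin (2 * n) => j s ≤ n ∧ (i : ℕ) < n)).trace.re) ≤
      ∑ s, (dgM (fun i : Fin (2 * n) => j s ≤ (i : ℕ) ∧ n ≤ (i : ℕ))).trace.re ∧
    (∑ s, (dgM (fun i : Fin (2 * n) => j s ≤ (i : ℕ))).trace.re) =
      (∑ s, (dgM (fun i : Fin (2 * n) => j s ≤ (i : ℕ) ∧ ¬ j s ≤ n)).trace.re) +
      (∑ s, (dgM (fun i : Fin (2 * n) => j s ≤ (i : ℕ) ∧ j s ≤ n)).trace.re)) ∧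
  (∀ (n N : ℕ) (r : ℕ → Fin N → ℕ) (σ : Fin N → ℕ) (κ : ℝ), 0 < n → 0 < N → 0 ≤ κ →
    (∀ s, σ s ^ 2 ≤ ∑ j ∈ Finset.range (2 * n), r j s) →
    (∀ j < 2 * n, (1 / (32 * n * N) : ℝ) * ∑ s, (r j s : ℝ) ≤ 35 * κ) →
    (1 / (32 * n * N) : ℝ) * ∑ s, (σ s : ℝ) ≤ 2 * Real.sqrt κ) ∧
  (∀ (m : ℕ) (Q : Matrix (Fin m) (Fin m) ℂ), Q * Q = Q → Q.trace = (Q.rank : ℂ) ∧
    Q.rank ≤ m ∧ (coordM m (m - Q.rank)).trace = (Q.rank : ℂ)) ∧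
  (∀ (m : ℕ) (p p' : Fin m → Prop), dgM p * dgM p' = dgM (fun i => p i ∧ p' i) ∧
    (dgM p).conjTranspose = dgM p) ∧
  (∀ (m j : ℕ), coordM m j = dgM (fun i : Fin m => j ≤ (i : ℕ)))

end Pool.Agent.H98R2.RR
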