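import Pool.Agent.H883R2.ISP.KEd

/-! MC: composition of almost mapping relations. -/

set_option autoImplicit false
open Filter Topology
open scoped ComplexOrder InnerProductSpace

namespace Pool.Agent.H98R2.RR
open Pool.H711R2

theorem MC : St_MC := by
  intro H _ _ _ M τ hτ hfa x hx y hy P hP R hR Z hZ hPp hRp hZp κ1 κ2 ε1 ε2 h1 h2 hA hB
  obtain ⟨P1, hP1, hP1p, hPP1, htr1, hn1⟩ := hA
  obtain ⟨R1, hR1, hR1p, hRR1, htr2, hn2⟩ := hB
  have hR1R : R1 * R = R1 := by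
    have := congrArg star hRR1
    rwa [star_mul, hRp.isSelfAdjoint.star_eq, hR1p.isSelfAdjoint.star_eq] at this
  have hD : IsStarProjection (R - R1) := by
    refine ⟨?_, hRp.isSelfAdjoint.sub hR1p.isSelfAdjoint⟩
    show (R - R1) * (R - R1) = R - R1
    rw [mul_sub, sub_mul, sub_mul, hRp.isIdempotentElem.eq, hRR1, hR1R,
      hR1p.isIdempotentElem.eq]
    abel
  have hf : (1 - (R - R1)) ∈ M := vn_sub (vn_one M) (vn_sub hR hR1)
  obtain ⟨g, hg, hgp, hgx, htg⟩ := hτ.exists_preimage hx hf hD.one_sub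
  obtain ⟨P2, hP2, hP2p, hP2g, hP2P1, htP2⟩ := hτ.exists_inf hg hP1 hgp hP1p
  have hfix : ∀ v, P2 (P2 v) = P2 v := fun v => by
    have := congrArg (fun z : H →L[ℂ] H => z v) hP2p.isIdempotentElem.eq
    simpa using this
  have hP12 : P1 * P2 = P2 := by
    ext v
    simpa using hP2P1 _ (hfix v)
  have hRx : (R - R1) * (x * P2) = 0 := by
    ext v
    have h3 := hgx _ (hP2g _ (hfix v))
    have h4 : x (P2 v) - (R - R1) (x (P2 v)) = x (P2 v) := by simpa using h3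
    have h5 : (R - R1) (x (P2 v)) = 0 := by
      rw [sub_eq_self] at h4
      exact h4
    simpa using h5
  have htf : tr τ (1 - (R - R1)) = 1 - tr τ R + tr τ R1 := by
    rw [tr_sub, tr_sub, hτ.tr_one]; ring
  refine ⟨P2, hP2, hP2p, ?_, ?_, ?_⟩
  · rw [← hP12, ← mul_assoc, hPP1]
  · rw [htf] at htg
    linarith
  · have hsplit : (1 - Z) * (y * x * P2) =
        (1 - Z) * (y * (((1 - R) * (x * P1)) * P2)) + ((1 - Z) * (y * R1)) * (x * P2) := by
      have h3 : x * P2 = (1 - R) * (x * P2) + R1 * (x * P2) := by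
        have h4 : (1 - R) * (x * P2) + R1 * (x * P2) = x * P2 - (R - R1) * (x * P2) := by
          noncomm_ring
        rw [h4, hRx, sub_zero]
      have h5 : (1 - R) * (x * P1) * P2 = (1 - R) * (x * P2) := by
        rw [mul_assoc, mul_assoc, hP12]
      rw [h5]
      calc (1 - Z) * (y * x * P2) = (1 - Z) * (y * (x * P2)) := by rw [mul_assoc y x P2]
        _ = (1 - Z) * (y * ((1 - R) * (x * P2) + R1 * (x * P2))) := by rw [← h3]
        _ = _ := by noncomm_ring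
    have hZ1 : ‖(1 - Z : H →L[ℂ] H)‖ ≤ 1 := hZp.one_sub.norm_le
    have hP21 : ‖P2‖ ≤ 1 := hP2p.norm_le
    have hb1 : ‖((1 - R) * (x * P1)) * P2‖ ≤ ε1 := by
      calc ‖((1 - R) * (x * P1)) * P2‖ ≤ ‖(1 - R) * (x * P1)‖ * ‖P2‖ := norm_mul_le _ _
        _ ≤ ε1 * 1 := mul_le_mul hn1 hP21 (norm_nonneg _) h1
        _ = ε1 := mul_one _
    have hb2 : ‖(1 - Z) * (y * (((1 - R) * (x * P1)) * P2))‖ ≤ ‖y‖ * ε1 := by
      calc ‖(1 - Z) * (y * (((1 - R) * (x * P1)) * P2))‖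
          ≤ ‖(1 - Z : H →L[ℂ] H)‖ * ‖y * (((1 - R) * (x * P1)) * P2)‖ := norm_mul_le _ _
        _ ≤ 1 * ‖y * (((1 - R) * (x * P1)) * P2)‖ :=
            mul_le_mul_of_nonneg_right hZ1 (norm_nonneg _)
        _ = ‖y * (((1 - R) * (x * P1)) * P2)‖ := one_mul _
        _ ≤ ‖y‖ * ‖((1 - R) * (x * P1)) * P2‖ := norm_mul_le _ _
        _ ≤ ‖y‖ * ε1 := mul_le_mul_of_nonneg_left hb1 (norm_nonneg _)
    have hb3 : ‖x * P2‖ ≤ ‖x‖ := by
      calc ‖x * P2‖ ≤ ‖x‖ * ‖P2‖ := norm_mul_le _ _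
        _ ≤ ‖x‖ * 1 := mul_le_mul_of_nonneg_left hP21 (norm_nonneg _)
        _ = ‖x‖ := mul_one _
    have hb4 : ‖((1 - Z) * (y * R1)) * (x * P2)‖ ≤ ‖x‖ * ε2 := by
      calc ‖((1 - Z) * (y * R1)) * (x * P2)‖ ≤ ‖(1 - Z) * (y * R1)‖ * ‖x * P2‖ :=
            norm_mul_le _ _
        _ ≤ ε2 * ‖x‖ := mul_le_mul hn2 hb3 (norm_nonneg _) h2
        _ = ‖x‖ * ε2 := mul_comm _ _
    rw [hsplit]
    exact (norm_add_le _ _).trans (add_le_add hb2 hb4)

end Pool.Agent.H98R2.RR
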