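import Pool.Agent.H883R2.ISP.KEd

set_option autoImplicit false
open Filter Topology
open scoped ComplexOrder InnerProductSpace

namespace Pool.Agent.H98R2.RR
open Pool.H711R2

theorem MR : St_MR := by
  intro H _ _ _ M τ hτ hf P hP R hR hPp hRp κ1 κ2 ε hε0 hε hmaps htr
  obtain ⟨P1, hP1, hP1p, hPP1, ht1, hn1⟩ := hmaps
  have sP1 : star P1 = P1 := hP1p.isSelfAdjoint.star_eq
  have sR : star R = R := hRp.isSelfAdjoint.star_eq
  have iP1 : ∀ v, P1 (P1 v) = P1 v := fun v =>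
    congrArg (fun z : H →L[ℂ] H => z v) hP1p.isIdempotentElem.eq
  have iR : ∀ v, R (R v) = R v := fun v =>
    congrArg (fun z : H →L[ℂ] H => z v) hRp.isIdempotentElem.eq
  have iPP : ∀ v, P (P1 v) = P1 v := fun v =>
    congrArg (fun z : H →L[ℂ] H => z v) hPP1
  set x : H →L[ℂ] H := P1 * R with hx
  have hxM : x ∈ M := vn_mul hP1 hR
  have hsx : star x = R * P1 := by rw [hx, star_mul, sP1, sR]
  have key : ∀ ζ : H, P1 ζ = ζ → ‖ζ - R ζ‖ ≤ ε * ‖ζ‖ := by
    intro ζ hζ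
    have h1 : ((1 - R) * (1 * P1)) ζ = ζ - R ζ := by
      have h2 : ((1 - R) * (1 * P1)) ζ = P1 ζ - R (P1 ζ) := rfl
      rw [h2, hζ]
    rw [← h1]
    exact (ContinuousLinearMap.le_opNorm _ _).trans
      (mul_le_mul_of_nonneg_right hn1 (norm_nonneg _))
  have hkM : kp x ∈ M := kp_mem hxM
  have hR1M : (1 - kp x) ∈ M := vn_sub (vn_one M) hkM
  have hR1p : IsStarProjection (1 - kp x) := (kp_isStar x).one_sub
  have h2 : kp x * (1 - R) = 1 - R := by
    ext v
    have h3 : x ((1 - R) v) = 0 := by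
      have h4 : x ((1 - R) v) = P1 (R (v - R v)) := rfl
      rw [h4, map_sub, iR, sub_self, map_zero]
    exact kp_apply_of_ker x h3
  have h3 : (1 - R) * kp x = 1 - R := by
    have h4 := congrArg star h2
    rw [star_mul, star_sub, star_one, sR, kp_star] at h4
    exact h4
  have h4 : R * (1 - kp x) = 1 - kp x := by
    have h5 : (1 - R) * (1 - kp x) = 0 := by rw [mul_sub, mul_one, h3, sub_self]
    rw [sub_mul, one_mul, sub_eq_zero] at h5
    exact h5.symm
  have h5 : tr τ (kp (star x)) ≤ tr τ (1 - P1) := by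
    apply hτ.tr_mono (kp_mem (vn_star hxM)) (vn_sub (vn_one M) hP1) (kp_isStar _) hP1p.one_sub
    intro v hv
    have h6 : (star x) v = 0 := by
      have := kp_apply_mem (star x) v
      rwa [hv] at this
    rw [hsx] at h6
    have h7 : R (P1 v) = 0 := h6
    have h8 := key (P1 v) (iP1 v)
    rw [h7, sub_zero] at h8
    have h9 : P1 v = 0 := by
      rw [← norm_eq_zero]
      have := norm_nonneg (P1 v)
      nlinarith
    show v - P1 v = v
    rw [h9, sub_zero]
  have h6 : tr τ P1 ≤ tr τ (1 - kp x) := by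
    rw [tr_sub, hτ.tr_one, hτ.trace_kp hxM]
    rw [tr_sub, hτ.tr_one] at h5
    linarith
  refine ⟨1 - kp x, hR1M, hR1p, h4, by linarith, ?_⟩
  refine ContinuousLinearMap.opNorm_le_bound _ (by positivity) fun v => ?_
  have h7 : ((1 - P) * (1 * (1 - kp x))) v = (1 - kp x) v - P ((1 - kp x) v) := rfl
  rw [h7]
  have h8 : (1 - kp x) v ∈ closure (Set.range (star x : H →L[ℂ] H)) := by
    have h9 : (1 - kp x) v ∈ (x.ker)ᗮ := by
      have h10 : (1 - kp x) v = v - (x.ker).starProjection v := rfl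
      rw [h10]
      exact Submodule.sub_starProjection_mem_orthogonal v
    rw [ContinuousLinearMap.orthogonal_ker] at h9
    exact h9
  have h9 : closure (Set.range (star x : H →L[ℂ] H)) ⊆ {η : H | ‖η - P η‖ ≤ 2 * ε * ‖η‖} := by
    apply closure_minimal
    · rintro η ⟨ξ, rfl⟩
      rw [hsx]
      show ‖R (P1 ξ) - P (R (P1 ξ))‖ ≤ 2 * ε * ‖R (P1 ξ)‖
      have k1 := key (P1 ξ) (iP1 ξ)
      have k2 : R (P1 ξ) - P (R (P1 ξ)) = (P - 1) (P1 ξ - R (P1 ξ)) := by
        have k3 : (P - 1) (P1 ξ - R (P1 ξ)) = P (P1 ξ - R (P1 ξ)) - (P1 ξ - R (P1 ξ)) := rfl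
        rw [k3, map_sub, iPP]
        abel
      have k4 : ‖(P - 1) (P1 ξ - R (P1 ξ))‖ ≤ ‖P1 ξ - R (P1 ξ)‖ := by
        have k5 : ‖P - 1‖ ≤ 1 := by
          rw [← norm_neg, neg_sub]
          exact hPp.one_sub.norm_le
        exact (ContinuousLinearMap.le_opNorm _ _).trans
          (mul_le_of_le_one_left (norm_nonneg _) k5)
      have k6 : ‖P1 ξ‖ ≤ ‖P1 ξ - R (P1 ξ)‖ + ‖R (P1 ξ)‖ := by
        have := norm_add_le (P1 ξ - R (P1 ξ)) (R (P1 ξ))
        rwa [sub_add_cancel] at this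
      rw [k2]
      have k7 := norm_nonneg (P1 ξ)
      have k8 : ‖P1 ξ‖ ≤ 2 * ‖R (P1 ξ)‖ := by nlinarith
      nlinarith
    · exact isClosed_le (by fun_prop) (by fun_prop)
  have h10 : ‖(1 - kp x) v - P ((1 - kp x) v)‖ ≤ 2 * ε * ‖(1 - kp x) v‖ := h9 h8
  refine h10.trans (mul_le_mul_of_nonneg_left ?_ (by positivity))
  exact (ContinuousLinearMap.le_opNorm _ _).trans
    (mul_le_of_le_one_left (norm_nonneg _) hR1p.norm_le)

end Pool.Agent.H98R2.RR
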