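import Pool.Agent.H883R2.ISP.KEd

set_option autoImplicit false
open Filter Topology
open scoped ComplexOrder InnerProductSpace

namespace Pool.Agent.H98R2.RR
open Pool.H711R2

namespace PI1x

variable {H : Type} [NormedAddCommGroup H] [InnerProductSpace ℂ H] [CompleteSpace H]
variable {M : VonNeumannAlgebra H} {τ : (H →L[ℂ] H) →ₗ[ℂ] ℂ} {m N : ℕ} {w : ℝ}
variable {E : Fin m → Fin m → (H →L[ℂ] H)} {d : Fin N → (H →L[ℂ] H)}

/-- the embedding of one matrix -/
noncomputable def eE (E : Fin m → Fin m → (H →L[ℂ] H)) (A : Matrix (Fin m) (Fin m) ℂ) :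
    H →L[ℂ] H := ∑ i, ∑ j, A i j • E i j

theorem pim_eq (A : Fin N → Matrix (Fin m) (Fin m) ℂ) :
    pim E d A = ∑ s, eE E (A s) * d s := by
  unfold pim eE
  refine Finset.sum_congr rfl fun s _ => ?_
  rw [Finset.sum_mul]
  refine Finset.sum_congr rfl fun i _ => ?_
  rw [Finset.sum_mul]
  refine Finset.sum_congr rfl fun j _ => ?_
  rw [smul_mul_assoc]

theorem eE_mul (h : Fib M τ m N w E d) (A B : Matrix (Fin m) (Fin m) ℂ) :
    eE E A * eE E B = eE E (A * B) := by
  unfold eE
  rw [Finset.sum_mul]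
  refine Finset.sum_congr rfl fun i _ => ?_
  rw [Finset.sum_mul]
  have h1 : ∀ j, (A i j • E i j) * ∑ k, ∑ l, B k l • E k l = ∑ l, (A i j * B j l) • E i l := by
    intro j
    rw [Finset.mul_sum, Finset.sum_eq_single j]
    · rw [Finset.mul_sum]
      refine Finset.sum_congr rfl fun l _ => ?_
      rw [smul_mul_smul_comm, h.mul, if_pos rfl]
    · intro k _ hk
      rw [Finset.mul_sum]
      refine Finset.sum_eq_zero fun l _ => ?_
      rw [smul_mul_smul_comm, h.mul, if_neg (Ne.symm hk), smul_zero]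
    · intro hj
      exact absurd (Finset.mem_univ _) hj
  rw [Finset.sum_congr rfl fun j _ => h1 j, Finset.sum_comm]
  refine Finset.sum_congr rfl fun l _ => ?_
  rw [← Finset.sum_smul, Matrix.mul_apply]

theorem eE_comm (h : Fib M τ m N w E d) (A : Matrix (Fin m) (Fin m) ℂ) (s : Fin N) :
    eE E A * d s = d s * eE E A := by
  unfold eE
  rw [Finset.sum_mul, Finset.mul_sum]
  refine Finset.sum_congr rfl fun i _ => ?_
  rw [Finset.sum_mul, Finset.mul_sum]
  refine Finset.sum_congr rfl fun j _ => ?_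
  rw [smul_mul_assoc, mul_smul_comm, h.comm]

theorem p_mul (h : Fib M τ m N w E d) (A B : Fin N → Matrix (Fin m) (Fin m) ℂ) :
    pim E d A * pim E d B = pim E d (fun s => A s * B s) := by
  rw [pim_eq, pim_eq, pim_eq, Finset.sum_mul]
  refine Finset.sum_congr rfl fun s _ => ?_
  rw [Finset.mul_sum, Finset.sum_eq_single s]
  · rw [← eE_mul h, mul_assoc, ← mul_assoc (d s), ← eE_comm h, mul_assoc, h.d_mul, if_pos rfl,
      mul_assoc]
  · intro t _ hts
    rw [mul_assoc, ← mul_assoc (d s), ← eE_comm h, mul_assoc, h.d_mul, if_neg (Ne.symm hts),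
      mul_zero, mul_zero]
  · intro hs
    exact absurd (Finset.mem_univ _) hs

theorem p_add (A B : Fin N → Matrix (Fin m) (Fin m) ℂ) :
    pim E d A + pim E d B = pim E d (fun s => A s + B s) := by
  unfold pim
  simp only [Matrix.add_apply, add_smul, Finset.sum_add_distrib]

theorem p_sub (A B : Fin N → Matrix (Fin m) (Fin m) ℂ) :
    pim E d A - pim E d B = pim E d (fun s => A s - B s) := by
  unfold pim
  simp only [Matrix.sub_apply, sub_smul, Finset.sum_sub_distrib]

theorem p_star (h : Fib M τ m N w E d) (A : Fin N → Matrix (Fin m) (Fin m) ℂ) :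
    star (pim E d A) = pim E d (fun s => (A s).conjTranspose) := by
  unfold pim
  rw [star_sum]
  refine Finset.sum_congr rfl fun s _ => ?_
  rw [star_sum]
  simp only [star_sum]
  rw [Finset.sum_comm]
  refine Finset.sum_congr rfl fun i _ => Finset.sum_congr rfl fun j _ => ?_
  rw [star_smul, star_mul, h.star', h.d_star, ← h.comm, Matrix.conjTranspose_apply]

theorem tr_unit (h : Fib M τ m N w E d) (i j : Fin m) (s : Fin N) :
    τ (E i j * d s) = if i = j then (w : ℂ) else 0 := by
  by_cases hij : i = j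
  · subst hij
    rw [if_pos rfl, h.trE]
  · rw [if_neg hij]
    have h1 : E i j * d s = E i i * (E i j * d s) := by
      rw [← mul_assoc, h.mul, if_pos rfl]
    have h2 : (E i j * d s) * E i i = 0 := by
      rw [mul_assoc, ← h.comm, ← mul_assoc, h.mul, if_neg (Ne.symm hij), zero_mul]
    rw [h1, h.trc.trace _ (h.E_mem i i) _ (mul_mem (h.E_mem i j) (h.d_mem s)), h2, map_zero]

theorem p_tr (h : Fib M τ m N w E d) (A : Fin N → Matrix (Fin m) (Fin m) ℂ) :
    τ (pim E d A) = (w : ℂ) * ∑ s, (A s).trace := by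
  unfold pim
  rw [map_sum, Finset.mul_sum]
  refine Finset.sum_congr rfl fun s _ => ?_
  rw [map_sum, Matrix.trace, Finset.mul_sum]
  refine Finset.sum_congr rfl fun i _ => ?_
  rw [map_sum, Finset.sum_eq_single i]
  · rw [map_smul, tr_unit h, if_pos rfl, smul_eq_mul, Matrix.diag_apply, mul_comm]
  · intro j _ hj
    rw [map_smul, tr_unit h, if_neg (Ne.symm hj), smul_zero]
  · intro hi
    exact absurd (Finset.mem_univ _) hi

theorem p_one (h : Fib M τ m N w E d) : pim E d (fun _ => 1) = ∑ i, E i i := by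
  have h1 : eE E (1 : Matrix (Fin m) (Fin m) ℂ) = ∑ i, E i i := by
    unfold eE
    refine Finset.sum_congr rfl fun i _ => ?_
    rw [Finset.sum_eq_single i]
    · rw [Matrix.one_apply_eq, one_smul]
    · intro j _ hj
      rw [Matrix.one_apply_ne (Ne.symm hj), zero_smul]
    · intro hi
      exact absurd (Finset.mem_univ _) hi
  rw [pim_eq, h1, ← Finset.mul_sum, h.d_sum, mul_one]

theorem p_mem (h : Fib M τ m N w E d) (A : Fin N → Matrix (Fin m) (Fin m) ℂ) :
    pim E d A ∈ M := by
  unfold pim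
  refine sum_mem fun s _ => sum_mem fun i _ => sum_mem fun j _ => ?_
  exact M.toStarSubalgebra.smul_mem (mul_mem (h.E_mem i j) (h.d_mem s)) _

theorem p_inj (h : Fib M τ m N w E d) (A : Fin N → Matrix (Fin m) (Fin m) ℂ)
    (hA : pim E d A = 0) : A = fun _ => 0 := by
  have h1 : τ (star (pim E d A) * pim E d A) = 0 := by rw [hA, mul_zero, map_zero]
  rw [p_star h, p_mul h, p_tr h] at h1
  have hw : (w : ℂ) ≠ 0 := by exact_mod_cast h.w_pos.ne'
  have h2 : ∑ s, ((A s).conjTranspose * A s).trace = 0 := by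
    rcases mul_eq_zero.1 h1 with h3 | h3
    · exact absurd h3 hw
    · exact h3
  have h3 := (Finset.sum_eq_zero_iff_of_nonneg (fun s _ =>
    (Matrix.posSemidef_conjTranspose_mul_self (A s)).trace_nonneg)).1 h2
  funext s
  exact Matrix.trace_conjTranspose_mul_self_eq_zero_iff.1 (h3 s (Finset.mem_univ _))

end PI1x

theorem PI1 : St_PI1 := by
  intro H _ _ _ M τ m N w E d h
  exact ⟨PI1x.p_mem h, PI1x.p_mul h, PI1x.p_add, PI1x.p_sub, PI1x.p_star h, PI1x.p_tr h,
    PI1x.p_one h, PI1x.p_inj h⟩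

end Pool.Agent.H98R2.RR
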