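import Pool.Agent.H883R2.ISP.KEd

set_option autoImplicit false
open Filter Topology
open scoped ComplexOrder InnerProductSpace
open Matrix

namespace Pool.Agent.H98R2.RR
open Pool.H711R2

noncomputable def pi2F {m : ℕ} (U : Matrix (Fin m) (Fin m) ℂ) (f : Fin m → ℝ) :
    Matrix (Fin m) (Fin m) ℂ := U * (Matrix.diagonal (fun i => ((f i : ℝ) : ℂ)) * Uᴴ)

theorem pi2F_mul {m : ℕ} {U : Matrix (Fin m) (Fin m) ℂ} (hU : Uᴴ * U = 1) (f g : Fin m → ℝ) :
    pi2F U f * pi2F U g = pi2F U (fun i => f i * g i) := by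
  unfold pi2F
  calc U * (Matrix.diagonal (fun i => ((f i : ℝ) : ℂ)) * Uᴴ) *
        (U * (Matrix.diagonal (fun i => ((g i : ℝ) : ℂ)) * Uᴴ))
      = U * (Matrix.diagonal (fun i => ((f i : ℝ) : ℂ)) * (Uᴴ * U) *
        (Matrix.diagonal (fun i => ((g i : ℝ) : ℂ)) * Uᴴ)) := by
        simp only [Matrix.mul_assoc]
    _ = U * ((Matrix.diagonal (fun i => ((f i : ℝ) : ℂ)) *
        Matrix.diagonal (fun i => ((g i : ℝ) : ℂ))) * Uᴴ) := by
        rw [hU, Matrix.mul_one]
        simp only [Matrix.mul_assoc]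
    _ = _ := by
        rw [Matrix.diagonal_mul_diagonal]
        simp only [Complex.ofReal_mul]

theorem pi2F_star {m : ℕ} (U : Matrix (Fin m) (Fin m) ℂ) (f : Fin m → ℝ) :
    (pi2F U f)ᴴ = pi2F U f := by
  unfold pi2F
  rw [Matrix.conjTranspose_mul, Matrix.conjTranspose_mul, Matrix.conjTranspose_conjTranspose,
    Matrix.diagonal_conjTranspose, Matrix.mul_assoc]
  congr 3
  funext i
  simp

theorem pi2F_add {m : ℕ} (U : Matrix (Fin m) (Fin m) ℂ) (f g : Fin m → ℝ) :
    pi2F U f + pi2F U g = pi2F U (fun i => f i + g i) := by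
  unfold pi2F
  rw [← Matrix.mul_add, ← Matrix.add_mul, Matrix.diagonal_add]
  simp only [Complex.ofReal_add]

theorem pi2F_one {m : ℕ} {U : Matrix (Fin m) (Fin m) ℂ} (hU : U * Uᴴ = 1) (c : ℝ) :
    pi2F U (fun _ => c) = (c : ℂ) • (1 : Matrix (Fin m) (Fin m) ℂ) := by
  unfold pi2F
  have : Matrix.diagonal (fun _ : Fin m => (c : ℂ)) = (c : ℂ) • (1 : Matrix (Fin m) (Fin m) ℂ) := by
    rw [Matrix.smul_one_eq_diagonal]
  rw [this, Matrix.smul_mul, Matrix.one_mul, Matrix.mul_smul, hU]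

theorem pi2F_smul {m : ℕ} (U : Matrix (Fin m) (Fin m) ℂ) (c : ℝ) (f : Fin m → ℝ) :
    (c : ℂ) • pi2F U f = pi2F U (fun i => c * f i) := by
  unfold pi2F
  have h : (c : ℂ) • Matrix.diagonal (fun i => ((f i : ℝ) : ℂ)) =
      Matrix.diagonal (fun i => ((c * f i : ℝ) : ℂ)) := by
    rw [← Matrix.diagonal_smul]
    congr 1
    funext i
    simp
  rw [← Matrix.mul_smul, ← Matrix.smul_mul, h]

theorem pi2_mul_apply {m : ℕ} (A B : Matrix (Fin m) (Fin m) ℂ) (v : EuclideanSpace ℂ (Fin m)) :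
    Matrix.toEuclideanLin (A * B) v = Matrix.toEuclideanLin A (Matrix.toEuclideanLin B v) := by
  simp only [Matrix.toEuclideanLin_apply, Matrix.mulVec_mulVec]

theorem pi2_inner {m : ℕ} (A : Matrix (Fin m) (Fin m) ℂ) (v : EuclideanSpace ℂ (Fin m)) :
    (⟪v, Matrix.toEuclideanLin (Aᴴ * A) v⟫_ℂ).re = ‖Matrix.toEuclideanLin A v‖ ^ 2 := by
  rw [pi2_mul_apply, Matrix.toEuclideanLin_conjTranspose_eq_adjoint, LinearMap.adjoint_inner_right]
  exact inner_self_eq_norm_sq (𝕜 := ℂ) _

theorem pi2_mat {m : ℕ} (A Q : Matrix (Fin m) (Fin m) ℂ) (hQs : Qᴴ = Q) (hAQ : A * Q = A)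
    (c : ℝ) (hc : 0 < c) :
    ∃ (G X : Matrix (Fin m) (Fin m) ℂ) (r : ℕ), G * G = G ∧ Gᴴ = G ∧ Q * G = G ∧
      G.trace = (r : ℂ) ∧ Aᴴ * A = ((c ^ 2 : ℝ) : ℂ) • G + Xᴴ * X ∧
      crank m c (Matrix.toEuclideanLin A) r := by
  classical
  have hpos : (Aᴴ * A).PosSemidef := Matrix.posSemidef_conjTranspose_mul_self A
  have hB : (Aᴴ * A).IsHermitian := hpos.1
  obtain ⟨l, hl⟩ : ∃ l, l = hB.eigenvalues := ⟨_, rfl⟩
  have hl0 : ∀ i, 0 ≤ l i := by
    intro i
    rw [hl]
    exact hpos.eigenvalues_nonneg i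
  obtain ⟨U, hUdef⟩ : ∃ U : Matrix (Fin m) (Fin m) ℂ, U = (hB.eigenvectorUnitary : Matrix _ _ ℂ) :=
    ⟨_, rfl⟩
  have hU1 : Uᴴ * U = 1 := by
    rw [hUdef, ← Matrix.star_eq_conjTranspose]
    exact Unitary.coe_star_mul_self hB.eigenvectorUnitary
  have hU2 : U * Uᴴ = 1 := mul_eq_one_comm.1 hU1
  have hspec : Aᴴ * A = pi2F U l := by
    have h1 := hB.spectral_theorem
    rw [Unitary.conjStarAlgAut_apply] at h1
    rw [h1]
    unfold pi2F
    rw [hUdef, hl, Matrix.mul_assoc, Matrix.star_eq_conjTranspose]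
    rfl
  obtain ⟨J, hJ⟩ : ∃ J : Fin m → ℝ, J = fun i => if c ^ 2 < l i then 1 else 0 := ⟨_, rfl⟩
  have hG1 : ∀ i, J i * J i = J i := by
    intro i
    rw [hJ]
    dsimp only
    split_ifs <;> simp
  refine ⟨pi2F U J, pi2F U (fun i => Real.sqrt (l i - c ^ 2 * J i)),
    (Finset.univ.filter (fun i => c ^ 2 < l i)).card, ?_, pi2F_star _ _, ?_, ?_, ?_, ?_⟩
  · rw [pi2F_mul hU1]
    simp only [hG1]
  · -- Q G = G
    have h1 : pi2F U J = (Aᴴ * A) * pi2F U (fun i => J i / l i) := by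
      rw [hspec, pi2F_mul hU1]
      congr 1
      funext i
      rw [hJ]
      dsimp only
      split_ifs with h
      · have : l i ≠ 0 := by
          have : 0 < c ^ 2 := by positivity
          linarith
        field_simp
      · simp
    have h2 : Q * Aᴴ = Aᴴ := by
      have := congrArg Matrix.conjTranspose hAQ
      rw [Matrix.conjTranspose_mul, hQs] at this
      exact this
    rw [h1, ← Matrix.mul_assoc, ← Matrix.mul_assoc, h2]
  · unfold pi2F
    rw [Matrix.trace_mul_comm, Matrix.mul_assoc, hU1, Matrix.mul_one, Matrix.trace_diagonal]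
    rw [hJ]
    dsimp only
    rw [← Complex.ofReal_sum, Finset.sum_boole]
    simp
  · rw [pi2F_star, pi2F_mul hU1, pi2F_smul, pi2F_add, hspec]
    congr 1
    funext i
    have h1 : 0 ≤ l i - c ^ 2 * J i := by
      rw [hJ]
      dsimp only
      have := hl0 i
      split_ifs with h
      · linarith
      · linarith
    rw [Real.mul_self_sqrt h1]
    ring
  · refine ⟨LinearMap.ker (Matrix.toEuclideanLin (pi2F U J)), ?_, ?_⟩
    · have h1 := LinearMap.finrank_range_add_finrank_ker (Matrix.toEuclideanLin (pi2F U J))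
      rw [finrank_euclideanSpace_fin] at h1
      have h2 : Module.finrank ℂ (LinearMap.range (Matrix.toEuclideanLin (pi2F U J))) =
          (pi2F U J).rank := by
        rw [Matrix.toEuclideanLin_eq_toLin]
        exact (Matrix.rank_eq_finrank_range_toLin _ _ _).symm
      have h3 : (pi2F U J).rank ≤ (Finset.univ.filter (fun i => c ^ 2 < l i)).card := by
        unfold pi2F
        refine (Matrix.rank_mul_le_right _ _).trans ((Matrix.rank_mul_le_left _ _).trans ?_)
        rw [Matrix.rank_diagonal, Fintype.card_subtype]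
        apply Finset.card_le_card
        intro i hi
        rw [Finset.mem_filter] at hi ⊢
        refine ⟨hi.1, ?_⟩
        by_contra hcon
        apply hi.2
        rw [hJ]
        simp [hcon]
      omega
    · intro v hv
      rw [LinearMap.mem_ker] at hv
      have hid : ((c ^ 2 : ℝ) : ℂ) • (1 : Matrix (Fin m) (Fin m) ℂ) +
          pi2F U (fun i => max (l i - c ^ 2) 0) * pi2F U J =
          Aᴴ * A + (pi2F U (fun i => Real.sqrt (max (c ^ 2 - l i) 0)))ᴴ *
            pi2F U (fun i => Real.sqrt (max (c ^ 2 - l i) 0)) := by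
        rw [pi2F_star, pi2F_mul hU1, pi2F_mul hU1, hspec, ← pi2F_one hU2, pi2F_add, pi2F_add]
        congr 1
        funext i
        rw [Real.mul_self_sqrt (le_max_right _ _), hJ]
        dsimp only
        split_ifs with h
        · rw [max_eq_left (by linarith), max_eq_right (by linarith)]
          ring
        · push Not at h
          rw [max_eq_left (a := c ^ 2 - l i) (by linarith)]
          ring
      have h1 := congrArg (fun Z => (⟪v, Matrix.toEuclideanLin Z v⟫_ℂ).re) hid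
      rw [map_add, map_add, LinearMap.add_apply, LinearMap.add_apply, pi2_mul_apply, hv, map_zero,
        add_zero, inner_add_right, Complex.add_re, pi2_inner, pi2_inner] at h1
      have h2 : (⟪v, Matrix.toEuclideanLin (((c ^ 2 : ℝ) : ℂ) • (1 : Matrix (Fin m) (Fin m) ℂ)) v⟫_ℂ).re =
          c ^ 2 * ‖v‖ ^ 2 := by
        have h3 : Matrix.toEuclideanLin (((c ^ 2 : ℝ) : ℂ) • (1 : Matrix (Fin m) (Fin m) ℂ)) v =
            ((c ^ 2 : ℝ) : ℂ) • v := by
          rw [map_smul, LinearMap.smul_apply]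
          congr 1
          simp [Matrix.toEuclideanLin_apply]
        rw [h3, inner_smul_right, Complex.re_ofReal_mul]
        congr 1
        exact inner_self_eq_norm_sq (𝕜 := ℂ) v
      rw [h2] at h1
      have h4 : ‖Matrix.toEuclideanLin A v‖ ^ 2 ≤ (c * ‖v‖) ^ 2 := by
        rw [mul_pow]
        have := sq_nonneg ‖Matrix.toEuclideanLin (pi2F U (fun i => Real.sqrt (max (c ^ 2 - l i) 0))) v‖
        linarith
      exact (pow_le_pow_iff_left₀ (norm_nonneg _) (by positivity) (by norm_num)).1 h4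


theorem pi2_smul {H : Type} [NormedAddCommGroup H] [InnerProductSpace ℂ H] [CompleteSpace H]
    {m N : ℕ} (E : Fin m → Fin m → (H →L[ℂ] H)) (d : Fin N → (H →L[ℂ] H)) (c : ℂ)
    (A : Fin N → Matrix (Fin m) (Fin m) ℂ) :
    pim E d (fun s => c • A s) = c • pim E d A := by
  unfold pim
  simp only [Finset.smul_sum, Matrix.smul_apply, smul_smul, smul_eq_mul]

theorem PI2 (h : St_PI1) : St_PI2 := by
  intro H _ _ _ M τ m N w E d hF Q A hQ2 hQs hAQ P1 hP1M hP1 hQP1 ε hε hn
  obtain ⟨hmem, hmul, hadd, hsub, hstar, htr, -, -⟩ := h H M τ m N w E d hF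
  have hmat := fun s => pi2_mat (A s) (Q s) (hQs s) (hAQ s) (2 * ε) (by positivity)
  choose G X r hG2 hGs hQG hGtr hdec hcr using hmat
  refine ⟨r, hcr, ?_⟩
  obtain ⟨g, hg⟩ : ∃ g, g = pim E d G := ⟨_, rfl⟩
  obtain ⟨q, hq⟩ : ∃ q, q = pim E d Q := ⟨_, rfl⟩
  obtain ⟨a, ha⟩ : ∃ a, a = pim E d A := ⟨_, rfl⟩
  obtain ⟨x, hx⟩ : ∃ x, x = pim E d X := ⟨_, rfl⟩
  rw [← hq] at hQP1
  rw [← ha] at hn
  have hgM : g ∈ M := hg ▸ hmem G
  have hqM : q ∈ M := hq ▸ hmem Q
  have hgg : g * g = g := by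
    rw [hg, hmul]
    congr 1
    funext s
    exact hG2 s
  have hgs : star g = g := by
    rw [hg, hstar]
    congr 1
    funext s
    exact hGs s
  have hqq : q * q = q := by
    rw [hq, hmul]
    congr 1
    funext s
    exact hQ2 s
  have hqs : star q = q := by
    rw [hq, hstar]
    congr 1
    funext s
    exact hQs s
  have hqg : q * g = g := by
    rw [hq, hg, hmul]
    congr 1
    funext s
    exact hQG s
  have haa : star a * a = (((2 * ε) ^ 2 : ℝ) : ℂ) • g + star x * x := by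
    rw [ha, hg, hx, hstar, hstar, hmul, hmul, ← pi2_smul, hadd]
    congr 1
    funext s
    exact hdec s
  have hgP : IsStarProjection g := ⟨hgg, hgs⟩
  have hqP : IsStarProjection q := ⟨hqq, hqs⟩
  have hP1s : star P1 = P1 := hP1.isSelfAdjoint.star_eq
  have hP1i : P1 * P1 = P1 := hP1.isIdempotentElem
  have hP1q : P1 * q = P1 := by
    have := congrArg star hQP1
    rw [star_mul, hP1s, hqs] at this
    exact this
  -- the projections are disjoint
  have hdis : ∀ v, g v = v → P1 v = v → v = 0 := by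
    intro v hgv hPv
    have h1 : ‖a v‖ ≤ ε * ‖v‖ := by
      have h2 : (a * P1) v = a v := by
        show a (P1 v) = a v
        rw [hPv]
      rw [← h2]
      exact (ContinuousLinearMap.le_opNorm _ _).trans
        (mul_le_mul_of_nonneg_right hn (norm_nonneg _))
    have h3 : ‖a v‖ ^ 2 = (2 * ε) ^ 2 * ‖v‖ ^ 2 + ‖x v‖ ^ 2 := by
      have h4 := congrArg (fun z : H →L[ℂ] H => ⟪z v, v⟫_ℂ) haa
      simp only [ContinuousLinearMap.add_apply, ContinuousLinearMap.smul_apply, hgv,
        inner_add_left, inner_smul_left, Complex.conj_ofReal] at h4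
      rw [inner_aa, inner_aa, isc, isc, isc] at h4
      exact_mod_cast h4
    have h5 : ‖a v‖ ^ 2 ≤ (ε * ‖v‖) ^ 2 := pow_le_pow_left₀ (norm_nonneg _) h1 2
    have h6 : 3 * ε ^ 2 * ‖v‖ ^ 2 ≤ 0 := by
      have := sq_nonneg ‖x v‖
      nlinarith
    have h7 : ‖v‖ ^ 2 ≤ 0 := by
      by_contra hcon
      push Not at hcon
      have : 0 < 3 * ε ^ 2 * ‖v‖ ^ 2 := by positivity
      linarith
    have h8 : ‖v‖ = 0 := by
      have := norm_nonneg v
      nlinarith
    exact norm_eq_zero.1 h8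
  obtain ⟨f, hf⟩ : ∃ f, f = P1 + (1 - q) := ⟨_, rfl⟩
  have hfM : f ∈ M := by
    rw [hf]
    exact vn_add hP1M (vn_sub (vn_one M) hqM)
  have hff : f * f = f := by
    have e1 : f * f = P1 * P1 + (P1 - P1 * q) + (P1 - q * P1) + (1 - q - q + q * q) := by
      rw [hf]
      noncomm_ring
    rw [e1, hP1i, hP1q, hQP1, hqq, hf]
    noncomm_ring
  have hfs : star f = f := by
    rw [hf, star_add, star_sub, star_one, hP1s, hqs]
  have hfP : IsStarProjection f := ⟨hff, hfs⟩
  have hdis2 : ∀ v, g v = v → f v = v → v = 0 := by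
    intro v hgv hfv
    have h1 : q v = v := by
      have h2 := congrArg (fun z : H →L[ℂ] H => z v) hqg
      have h3 : q (g v) = g v := h2
      rwa [hgv] at h3
    apply hdis v hgv
    have h4 : f v = P1 v + (v - q v) := by
      rw [hf]
      rfl
    rw [h1, sub_self, add_zero] at h4
    rw [← h4, hfv]
  have hle := hF.trc.tr_disjoint hgM hfM hgP hfP hdis2
  have hf1 : tr τ f = tr τ P1 + (1 - tr τ q) := by
    rw [hf, tr_add, tr_sub, hF.trc.tr_one]
  have hgt : tr τ g = w * ∑ s, (r s : ℝ) := by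
    unfold tr
    rw [hg, htr]
    have : ∑ s, (G s).trace = ((∑ s, (r s : ℝ) : ℝ) : ℂ) := by
      rw [Complex.ofReal_sum]
      apply Finset.sum_congr rfl
      intro s _
      rw [hGtr s]
      simp
    rw [this, ← Complex.ofReal_mul, Complex.ofReal_re]
  rw [hf1, hgt] at hle
  rw [← hq]
  linarith

end Pool.Agent.H98R2.RR
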