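import Pool.Agent.H883R2.ISP.KEd

set_option autoImplicit false
open Filter Topology
open scoped ComplexOrder InnerProductSpace

namespace Pool.Agent.H98R2.RR
open Pool.H711R2

namespace PI3x

/-- the isomorphism of matrices and operators -/
noncomputable abbrev e (m : ℕ) : Matrix (Fin m) (Fin m) ℂ ≃⋆ₐ[ℂ]
    (EuclideanSpace ℂ (Fin m) →L[ℂ] EuclideanSpace ℂ (Fin m)) :=
  Matrix.toEuclideanCLM (n := Fin m) (𝕜 := ℂ)

lemma e_mul {m : ℕ} (A B : Matrix (Fin m) (Fin m) ℂ) : e m (A * B) = e m A * e m B :=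
  map_mul (e m) A B

lemma e_star {m : ℕ} (A : Matrix (Fin m) (Fin m) ℂ) : e m A.conjTranspose = star (e m A) :=
  map_star (e m) A

lemma e_sub {m : ℕ} (A B : Matrix (Fin m) (Fin m) ℂ) : e m (A - B) = e m A - e m B :=
  map_sub (e m) A B

lemma e_smul {m : ℕ} (c : ℂ) (A : Matrix (Fin m) (Fin m) ℂ) : e m (c • A) = c • e m A :=
  map_smul (e m) c A

lemma e_inj {m : ℕ} {A B : Matrix (Fin m) (Fin m) ℂ} (h : e m A = e m B) : A = B :=
  EquivLike.injective (e m) h

lemma e_symm {m : ℕ} (T : EuclideanSpace ℂ (Fin m) →L[ℂ] EuclideanSpace ℂ (Fin m)) :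
    e m ((e m).symm T) = T :=
  (e m).apply_symm_apply T

lemma trace_e (m : ℕ) (A : Matrix (Fin m) (Fin m) ℂ) :
    LinearMap.trace ℂ _ ((e m A : EuclideanSpace ℂ (Fin m) →L[ℂ] EuclideanSpace ℂ (Fin m)) :
      EuclideanSpace ℂ (Fin m) →ₗ[ℂ] EuclideanSpace ℂ (Fin m)) = A.trace := by
  rw [Matrix.coe_toEuclideanCLM_eq_toEuclideanLin, Matrix.toEuclideanLin_eq_toLin,
    LinearMap.trace_eq_matrix_trace ℂ (PiLp.basisFun 2 ℂ (Fin m)), LinearMap.toMatrix_toLin]

lemma trace_proj (m : ℕ) (U : Submodule ℂ (EuclideanSpace ℂ (Fin m))) :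
    ((e m).symm U.starProjection).trace = (Module.finrank ℂ U : ℂ) := by
  rw [← trace_e, e_symm]
  apply LinearMap.IsProj.trace
  constructor
  · intro x
    exact U.starProjection_apply_mem x
  · intro x hx
    exact Submodule.starProjection_eq_self_iff.2 hx

lemma pos_e {m : ℕ} (b : EuclideanSpace ℂ (Fin m) →L[ℂ] EuclideanSpace ℂ (Fin m))
    (U : Submodule ℂ (EuclideanSpace ℂ (Fin m))) (θ : ℝ) (hθ : 0 ≤ θ)
    (hb : ∀ v ∈ U, ‖b v‖ ≤ θ * ‖v‖) :
    ∃ X : EuclideanSpace ℂ (Fin m) →L[ℂ] EuclideanSpace ℂ (Fin m),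
      star X * X = ((θ ^ 2 : ℝ) : ℂ) • U.starProjection -
        star (b * U.starProjection) * (b * U.starProjection) := by
  have h0 : (0 : EuclideanSpace ℂ (Fin m) →L[ℂ] EuclideanSpace ℂ (Fin m)) ≤
      ((θ ^ 2 : ℝ) : ℂ) • U.starProjection -
        star (b * U.starProjection) * (b * U.starProjection) := by
    rw [ContinuousLinearMap.nonneg_iff_isPositive]
    have hsa : IsSelfAdjoint (((θ ^ 2 : ℝ) : ℂ) • U.starProjection -
        star (b * U.starProjection) * (b * U.starProjection)) := by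
      apply IsSelfAdjoint.sub
      · apply IsSelfAdjoint.smul
        · rw [isSelfAdjoint_iff]
          simp
        · exact (isStarProjection_starProjection (U := U)).isSelfAdjoint
      · exact IsSelfAdjoint.star_mul_self _
    rw [ContinuousLinearMap.isPositive_iff_complex]
    intro x
    have hre : inner ℂ ((((θ ^ 2 : ℝ) : ℂ) • U.starProjection -
        star (b * U.starProjection) * (b * U.starProjection)) x) x =
        ((θ ^ 2 * ‖U.starProjection x‖ ^ 2 - ‖b (U.starProjection x)‖ ^ 2 : ℝ) : ℂ) := by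
      have e1 : (((θ ^ 2 : ℝ) : ℂ) • U.starProjection -
        star (b * U.starProjection) * (b * U.starProjection)) x =
        ((θ ^ 2 : ℝ) : ℂ) • (U.starProjection x) -
          ContinuousLinearMap.adjoint (b * U.starProjection) ((b * U.starProjection) x) := rfl
      rw [e1, inner_sub_left, inner_smul_left, ContinuousLinearMap.adjoint_inner_left]
      have e2 : inner ℂ (U.starProjection x) x = ((‖U.starProjection x‖ ^ 2 : ℝ) : ℂ) := by
        have h1 : inner ℂ (U.starProjection x) x = inner ℂ (U.starProjection x) (U.starProjection x) := by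
          have h2 := (isStarProjection_starProjection (U := U)).isIdempotentElem
          have h3 := (isStarProjection_starProjection (U := U)).isSelfAdjoint
          have h4 : U.starProjection (U.starProjection x) = U.starProjection x := by
            have := congrArg (fun T => T x) h2
            exact this
          calc inner ℂ (U.starProjection x) x
              = inner ℂ (U.starProjection (U.starProjection x)) x := by rw [h4]
            _ = inner ℂ (U.starProjection x) (U.starProjection x) := by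
                have h5 : ContinuousLinearMap.adjoint U.starProjection = U.starProjection := h3
                conv_lhs => rw [← h5]
                rw [ContinuousLinearMap.adjoint_inner_left, h5]
        rw [h1, inner_self_eq_norm_sq_to_K]
        push_cast
        rfl
      rw [e2]
      have e3 : inner ℂ ((b * U.starProjection) x) ((b * U.starProjection) x) =
          ((‖b (U.starProjection x)‖ ^ 2 : ℝ) : ℂ) := by
        rw [inner_self_eq_norm_sq_to_K]
        push_cast
        rfl
      rw [e3, Complex.conj_ofReal]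
      push_cast
      ring
    rw [hre]
    refine ⟨rfl, ?_⟩
    have h1 := hb (U.starProjection x) (U.starProjection_apply_mem x)
    have h2 : ‖b (U.starProjection x)‖ ^ 2 ≤ (θ * ‖U.starProjection x‖) ^ 2 :=
      pow_le_pow_left₀ (norm_nonneg _) h1 2
    rw [mul_pow] at h2
    simp only [Complex.ofReal_re, RCLike.re_to_complex]
    linarith
  obtain ⟨X, hX⟩ := CStarAlgebra.nonneg_iff_eq_star_mul_self.1 h0
  exact ⟨X, hX.symm⟩

lemma pim_smul {H : Type} [NormedAddCommGroup H] [InnerProductSpace ℂ H]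
    [CompleteSpace H] {m N : ℕ} (E : Fin m → Fin m → (H →L[ℂ] H)) (d : Fin N → (H →L[ℂ] H)) (c : ℂ)
    (A : Fin N → Matrix (Fin m) (Fin m) ℂ) : pim E d (fun s => c • A s) = c • pim E d A := by
  unfold pim
  simp only [Finset.smul_sum, Matrix.smul_apply, smul_eq_mul, mul_smul]

end PI3x

open PI3x in
theorem PI3 (h : St_PI1) : St_PI3 := by
  intro H _ _ _ M τ m N w E d hF Q B hQ2 hQs r θ hθ hcr
  obtain ⟨hmem, hmul, -, hsub, hstar, htr, -, -⟩ := h H M τ m N w E d hF
  choose V hV hVn using hcr
  set R : Fin N → Submodule ℂ (EuclideanSpace ℂ (Fin m)) := fun s =>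
    LinearMap.range (e m (Q s) : EuclideanSpace ℂ (Fin m) →ₗ[ℂ] EuclideanSpace ℂ (Fin m)) with hR
  set U : Fin N → Submodule ℂ (EuclideanSpace ℂ (Fin m)) := fun s => V s ⊓ R s with hU
  set G : Fin N → Matrix (Fin m) (Fin m) ℂ := fun s => (e m).symm (U s).starProjection with hG
  have hQe : ∀ s, e m (Q s) * e m (Q s) = e m (Q s) := fun s => by rw [← e_mul, hQ2]
  have hRfix : ∀ s, ∀ v ∈ R s, e m (Q s) v = v := by
    intro s v hv
    obtain ⟨u, rfl⟩ := hv
    have := congrArg (fun T => T u) (hQe s)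
    exact this
  have heG : ∀ s, e m (G s) = (U s).starProjection := fun s => e_symm _
  have hGG : ∀ s, G s * G s = G s := fun s => by
    apply e_inj
    rw [e_mul, heG]
    exact (isStarProjection_starProjection (U := U s)).isIdempotentElem
  have hGs : ∀ s, (G s).conjTranspose = G s := fun s => by
    apply e_inj
    rw [e_star, heG]
    exact (isStarProjection_starProjection (U := U s)).isSelfAdjoint
  have hQG : ∀ s, Q s * G s = G s := fun s => by
    apply e_inj
    rw [e_mul, heG]
    ext1 x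
    have hx : (U s).starProjection x ∈ R s := ((U s).starProjection_apply_mem x).2
    exact hRfix s _ hx
  have hdim : ∀ s, (Module.finrank ℂ (R s) : ℝ) - Module.finrank ℂ (U s) ≤ r s := by
    intro s
    have h1 := Submodule.finrank_sup_add_finrank_inf_eq (V s) (R s)
    have h2 : Module.finrank ℂ (V s ⊔ R s : Submodule ℂ (EuclideanSpace ℂ (Fin m))) ≤ m := by
      have := Submodule.finrank_le (V s ⊔ R s)
      rwa [finrank_euclideanSpace_fin] at this
    have h3 := hV s
    have h4 : Module.finrank ℂ (R s) ≤ Module.finrank ℂ (U s) + r s := by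
      change Module.finrank ℂ (R s) ≤ Module.finrank ℂ (V s ⊓ R s : Submodule ℂ (EuclideanSpace ℂ (Fin m))) + r s
      omega
    have h5 : (Module.finrank ℂ (R s) : ℝ) ≤ Module.finrank ℂ (U s) + r s := by exact_mod_cast h4
    linarith
  have htQ : ∀ s, (Q s).trace = (Module.finrank ℂ (R s) : ℂ) := by
    intro s
    rw [← trace_e]
    apply LinearMap.IsProj.trace
    exact ⟨fun x => ⟨x, rfl⟩, fun x hx => hRfix s x hx⟩
  have htG : ∀ s, (G s).trace = (Module.finrank ℂ (U s) : ℂ) := fun s => trace_proj m (U s)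
  have hP2 : pim E d G * pim E d G = pim E d G := by
    rw [hmul]
    congr 1
    funext s
    exact hGG s
  have hPs : star (pim E d G) = pim E d G := by
    rw [hstar]
    congr 1
    funext s
    exact hGs s
  refine ⟨pim E d G, hmem G, ⟨hP2, hPs⟩, ?_, ?_, ?_⟩
  · rw [hmul]
    congr 1
    funext s
    exact hQG s
  · unfold tr
    rw [htr, htr]
    have e1 : ((w : ℂ) * ∑ s, (Q s).trace).re = w * ∑ s, (Module.finrank ℂ (R s) : ℝ) := by
      rw [Complex.re_ofReal_mul, Complex.re_sum]
      congr 1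
      apply Finset.sum_congr rfl
      intro s _
      rw [htQ]
      simp
    have e2 : ((w : ℂ) * ∑ s, (G s).trace).re = w * ∑ s, (Module.finrank ℂ (U s) : ℝ) := by
      rw [Complex.re_ofReal_mul, Complex.re_sum]
      congr 1
      apply Finset.sum_congr rfl
      intro s _
      rw [htG]
      simp
    rw [e1, e2, ← mul_sub, ← Finset.sum_sub_distrib]
    exact mul_le_mul_of_nonneg_left (Finset.sum_le_sum fun s _ => hdim s) hF.w_pos.le
  · -- the norm
    have hX : ∀ s, ∃ X : EuclideanSpace ℂ (Fin m) →L[ℂ] EuclideanSpace ℂ (Fin m),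
        star X * X = ((θ ^ 2 : ℝ) : ℂ) • (U s).starProjection -
        star (e m (B s) * (U s).starProjection) * (e m (B s) * (U s).starProjection) := by
      intro s
      apply pos_e (e m (B s)) (U s) θ hθ
      intro v hv
      have h1 := hVn s v hv.1
      have h2 : Matrix.toEuclideanLin (B s * Q s) v = e m (B s) v := by
        rw [← Matrix.coe_toEuclideanCLM_eq_toEuclideanLin]
        have h3 : e m (B s * Q s) = e m (B s) * e m (Q s) := e_mul _ _
        have h4 : (e m (B s * Q s)) v = e m (B s) (e m (Q s) v) := by rw [h3]; rfl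
        rw [hRfix s v hv.2] at h4
        exact h4
      rw [h2] at h1
      exact h1
    choose X hX using hX
    set Y : Fin N → Matrix (Fin m) (Fin m) ℂ := fun s => (e m).symm (X s) with hY
    have hYY : star (pim E d Y) * pim E d Y = ((θ ^ 2 : ℝ) : ℂ) • pim E d G -
        star (pim E d (fun s => B s * G s)) * pim E d (fun s => B s * G s) := by
      rw [hstar, hmul, hstar, hmul, ← pim_smul, hsub]
      congr 1
      funext s
      apply e_inj
      have h1 := hX s
      have h2 : e m (Y s) = X s := e_symm _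
      rw [e_sub, e_mul, e_mul, e_star, e_star, e_mul, e_smul, heG, h2]
      exact h1
    have hBG : pim E d B * pim E d G = pim E d (fun s => B s * G s) := hmul _ _
    rw [hBG]
    set T := pim E d (fun s => B s * G s) with hT
    apply ContinuousLinearMap.opNorm_le_bound _ hθ
    intro ξ
    have h1 : ‖T ξ‖ ^ 2 = θ ^ 2 * ‖pim E d G ξ‖ ^ 2 - ‖pim E d Y ξ‖ ^ 2 := by
      have h2 := congrArg (fun S : H →L[ℂ] H => (inner ℂ (S ξ) ξ).re) hYY
      have a1 : ∀ S : H →L[ℂ] H, (inner ℂ ((star S * S) ξ) ξ).re = ‖S ξ‖ ^ 2 := by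
        intro S
        have : (star S * S) ξ = ContinuousLinearMap.adjoint S (S ξ) := rfl
        rw [this, ContinuousLinearMap.adjoint_inner_left]
        exact inner_self_eq_norm_sq (𝕜 := ℂ) (S ξ)
      have a2 : (inner ℂ ((pim E d G) ξ) ξ).re = ‖pim E d G ξ‖ ^ 2 := by
        rw [← a1, hPs, hP2]
      have a3 : (inner ℂ ((((θ ^ 2 : ℝ) : ℂ) • pim E d G - star T * T) ξ) ξ).re =
          θ ^ 2 * ‖pim E d G ξ‖ ^ 2 - ‖T ξ‖ ^ 2 := by
        have : (((θ ^ 2 : ℝ) : ℂ) • pim E d G - star T * T) ξ =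
            ((θ ^ 2 : ℝ) : ℂ) • (pim E d G ξ) - (star T * T) ξ := rfl
        rw [this, inner_sub_left, inner_smul_left, Complex.sub_re, a1, Complex.conj_ofReal,
          Complex.re_ofReal_mul, a2]
      have h2' : (inner ℂ ((star (pim E d Y) * pim E d Y) ξ) ξ).re =
        (inner ℂ ((((θ ^ 2 : ℝ) : ℂ) • pim E d G - star T * T) ξ) ξ).re := h2
      rw [a1, a3] at h2'
      linarith
    have h3 : ‖pim E d G ξ‖ ≤ ‖ξ‖ := by
      have a4 : ‖pim E d G ξ‖ ^ 2 ≤ ‖pim E d G ξ‖ * ‖ξ‖ := by
        have a1 : ‖pim E d G ξ‖ ^ 2 = (inner ℂ ((pim E d G) ξ) ξ).re := by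
          have h5 : (star (pim E d G) * pim E d G) ξ = pim E d G ξ := by rw [hPs, hP2]
          have h6 : (star (pim E d G) * pim E d G) ξ =
            ContinuousLinearMap.adjoint (pim E d G) (pim E d G ξ) := rfl
          have h8 : inner ℂ ((pim E d G) ξ) ξ = inner ℂ ((pim E d G) ξ) ((pim E d G) ξ) := by
            conv_lhs => rw [← h5, h6]
            rw [ContinuousLinearMap.adjoint_inner_left]
          rw [h8]
          exact (inner_self_eq_norm_sq (𝕜 := ℂ) (pim E d G ξ)).symm
        rw [a1]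
        exact (Complex.re_le_norm _).trans (norm_inner_le_norm _ _)
      by_contra hcon
      push Not at hcon
      have h7 : 0 < ‖pim E d G ξ‖ := lt_of_le_of_lt (norm_nonneg _) hcon
      nlinarith
    have h4 : ‖T ξ‖ ^ 2 ≤ (θ * ‖ξ‖) ^ 2 := by
      have h5 : ‖pim E d G ξ‖ ^ 2 ≤ ‖ξ‖ ^ 2 := pow_le_pow_left₀ (norm_nonneg _) h3 2
      have h6 : θ ^ 2 * ‖pim E d G ξ‖ ^ 2 ≤ θ ^ 2 * ‖ξ‖ ^ 2 := mul_le_mul_of_nonneg_left h5 (sq_nonneg θ)
      rw [mul_pow]
      nlinarith [sq_nonneg ‖pim E d Y ξ‖]
    exact (pow_le_pow_iff_left₀ (norm_nonneg _) (by positivity) two_ne_zero).1 h4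

end Pool.Agent.H98R2.RR
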