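import Pool.Agent.H883R2.ISP.KEx
import Pool.Agent.H883R2.ISP.MC
import Pool.Agent.H883R2.ISP.MR
import Pool.Agent.H883R2.ISP.PI1
import Pool.Agent.H883R2.ISP.PI2
import Pool.Agent.H883R2.ISP.PI3
import Pool.Agent.H883R2.ISP.FIB
import Pool.Agent.H883R2.ISP.KE1
import Pool.Agent.H883R2.ISP.KE2
import Pool.Agent.H883R2.ISP.KE3
import Pool.Agent.H98R2.RR.FD
import Pool.Agent.H98R2.RR.BAS1
import Pool.Agent.H98R2.RR.BAS2

set_option autoImplicit false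

namespace Pool.Agent.H98R2.RR

theorem KEx_final : St_KEx :=
  KEx MC MR PI1 (PI2 PI1) (PI3 PI1) (FIB BAS1 (BAS2 BAS1))
    (KE1 BAS1 (BAS2 BAS1) PI1 (FIB BAS1 (BAS2 BAS1))) (KE2 MC MR) KE3 FD

end Pool.Agent.H98R2.RR
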