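import Mathlib

/-!
# Order sets of subspaces of `ℂ^N` and the pair counting inequality

Helper file for the project ISP-II1 (step (v)): linear algebra of order sets.
-/

namespace H883R2.ISP

open Finset

/-- vectors whose coordinates below `k` vanish -/
def tail (N k : ℕ) : Submodule ℂ (Fin N → ℂ) where
  carrier := {v | ∀ i : Fin N, i.1 < k → v i = 0}
  add_mem' := by
    intro a b ha hb i hi
    simp [ha i hi, hb i hi]
  zero_mem' := by
    intro i _
    rfl
  smul_mem' := by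
    intro c a ha i hi
    simp [ha i hi]

theorem mem_tail {N k : ℕ} {v : Fin N → ℂ} : v ∈ tail N k ↔ ∀ i : Fin N, i.1 < k → v i = 0 :=
  Iff.rfl

theorem tail_zero (N : ℕ) : tail N 0 = ⊤ := by
  ext v
  simp [mem_tail]

theorem tail_top (N : ℕ) : tail N N = ⊥ := by
  ext v
  simp only [mem_tail, Submodule.mem_bot]
  constructor
  · intro h
    funext i
    exact h i i.2
  · intro h i _
    rw [h]
    rfl

theorem tail_anti {N s t : ℕ} (h : s ≤ t) : tail N t ≤ tail N s := by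
  intro v hv i hi
  exact hv i (lt_of_lt_of_le hi h)

/-- `k` is an order of `Q`: some vector of `Q` has its lowest nonzero coordinate at `k` -/
def IsOrd {N : ℕ} (Q : Submodule ℂ (Fin N → ℂ)) (k : ℕ) : Prop :=
  ∃ v ∈ Q, v ∈ tail N k ∧ ∃ h : k < N, v ⟨k, h⟩ ≠ 0

open Classical in
/-- the set of orders -/
noncomputable def ordSet {N : ℕ} (Q : Submodule ℂ (Fin N → ℂ)) : Finset ℕ :=
  (range N).filter (fun k => IsOrd Q k)

theorem mem_ordSet {N : ℕ} {Q : Submodule ℂ (Fin N → ℂ)} {k : ℕ} :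
    k ∈ ordSet Q ↔ IsOrd Q k := by
  classical
  unfold ordSet
  simp only [Finset.mem_filter, Finset.mem_range]
  constructor
  · exact fun h => h.2
  · intro h
    obtain ⟨v, hv, ht, hk, hne⟩ := h
    exact ⟨hk, v, hv, ht, hk, hne⟩

theorem ordSet_lt {N : ℕ} {Q : Submodule ℂ (Fin N → ℂ)} {k : ℕ} (h : k ∈ ordSet Q) : k < N := by
  obtain ⟨_, _, _, hk, _⟩ := mem_ordSet.1 h
  exact hk

theorem ordSet_mono {N : ℕ} {Q Q' : Submodule ℂ (Fin N → ℂ)} (h : Q ≤ Q') :
    ordSet Q ⊆ ordSet Q' := by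
  intro k hk
  obtain ⟨v, hv, ht, hk, hne⟩ := mem_ordSet.1 hk
  exact mem_ordSet.2 ⟨v, h hv, ht, hk, hne⟩

open Classical in
theorem finrank_step {N : ℕ} (Q : Submodule ℂ (Fin N → ℂ)) (k : ℕ) :
    Module.finrank ℂ (Q ⊓ tail N k : Submodule ℂ (Fin N → ℂ)) =
      Module.finrank ℂ (Q ⊓ tail N (k + 1) : Submodule ℂ (Fin N → ℂ)) +
        (if k ∈ ordSet Q then 1 else 0) := by
  by_cases hk : k ∈ ordSet Q
  · rw [if_pos hk]
    obtain ⟨v, hv, ht, hkN, hne⟩ := mem_ordSet.1 hk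
    -- the functional
    let φ : (Q ⊓ tail N k : Submodule ℂ (Fin N → ℂ)) →ₗ[ℂ] ℂ :=
      (LinearMap.proj (⟨k, hkN⟩ : Fin N)).comp (Q ⊓ tail N k).subtype
    have hφ : ∀ w : (Q ⊓ tail N k : Submodule ℂ (Fin N → ℂ)), φ w = w.1 ⟨k, hkN⟩ := fun w => rfl
    have hsurj : Function.Surjective φ := by
      intro c
      refine ⟨(c / v ⟨k, hkN⟩) • ⟨v, hv, ht⟩, ?_⟩
      rw [map_smul, hφ]
      simp only [smul_eq_mul]
      field_simp
    have h1 := LinearMap.finrank_range_add_finrank_ker φ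
    rw [LinearMap.range_eq_top.2 hsurj, finrank_top, Module.finrank_self] at h1
    have h2 : Module.finrank ℂ (LinearMap.ker φ) =
        Module.finrank ℂ (Q ⊓ tail N (k + 1) : Submodule ℂ (Fin N → ℂ)) := by
      have h3 : (LinearMap.ker φ).map (Q ⊓ tail N k).subtype = Q ⊓ tail N (k + 1) := by
        ext w
        simp only [Submodule.mem_map, LinearMap.mem_ker, Submodule.coe_subtype, Subtype.exists,
          Submodule.mem_inf, exists_and_right, exists_eq_right]
        constructor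
        · rintro ⟨⟨hwQ, hwt⟩, hw0⟩
          refine ⟨hwQ, ?_⟩
          intro i hi
          rcases Nat.lt_succ_iff_lt_or_eq.1 hi with h | h
          · exact hwt i h
          · have : i = ⟨k, hkN⟩ := Fin.ext h
            rw [this]
            exact hw0
        · rintro ⟨hwQ, hwt⟩
          exact ⟨⟨hwQ, tail_anti (Nat.le_succ k) hwt⟩, hwt ⟨k, hkN⟩ (Nat.lt_succ_self k)⟩
      rw [← h3]
      exact (LinearEquiv.finrank_eq (Submodule.equivMapOfInjective _
        (Submodule.subtype_injective _) _))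
    rw [← h1, h2, add_comm]
  · rw [if_neg hk, add_zero]
    have : (Q ⊓ tail N k : Submodule ℂ (Fin N → ℂ)) = Q ⊓ tail N (k + 1) := by
      apply le_antisymm
      · rintro w ⟨hwQ, hwt⟩
        refine ⟨hwQ, ?_⟩
        intro i hi
        rcases Nat.lt_succ_iff_lt_or_eq.1 hi with h | h
        · exact hwt i h
        · by_contra hne
          apply hk
          have hkN : k < N := h ▸ i.2
          refine mem_ordSet.2 ⟨w, hwQ, hwt, hkN, ?_⟩
          have : i = ⟨k, hkN⟩ := Fin.ext h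
          rw [this] at hne
          exact hne
      · exact inf_le_inf_left Q (tail_anti (Nat.le_succ k))
    rw [this]

open Classical in
theorem finrank_tail {N : ℕ} (Q : Submodule ℂ (Fin N → ℂ)) {s t : ℕ} (hst : s ≤ t) :
    Module.finrank ℂ (Q ⊓ tail N s : Submodule ℂ (Fin N → ℂ)) =
      Module.finrank ℂ (Q ⊓ tail N t : Submodule ℂ (Fin N → ℂ)) +
        ((Finset.Ico s t).filter (fun k => k ∈ ordSet Q)).card := by
  induction t, hst using Nat.le_induction with
  | base => simp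
  | succ t hst ih =>
    rw [ih, finrank_step Q t, Nat.Ico_succ_right_eq_insert_Ico hst, Finset.filter_insert]
    by_cases hk : t ∈ ordSet Q
    · rw [if_pos hk, if_pos hk, Finset.card_insert_of_notMem (by simp)]
      ring
    · rw [if_neg hk, if_neg hk]
      ring

open Classical in
/-- orders `≥ s` count the vectors of `Q` supported on `[s, N)` -/
theorem card_ge {N : ℕ} (Q : Submodule ℂ (Fin N → ℂ)) {s : ℕ} (hs : s ≤ N) :
    ((ordSet Q).filter (fun k => s ≤ k)).card =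
      Module.finrank ℂ (Q ⊓ tail N s : Submodule ℂ (Fin N → ℂ)) := by
  rw [finrank_tail Q hs, tail_top, inf_bot_eq, finrank_bot, zero_add]
  congr 1
  ext k
  simp only [Finset.mem_filter, Finset.mem_Ico]
  constructor
  · rintro ⟨h1, h2⟩
    exact ⟨⟨h2, ordSet_lt h1⟩, h1⟩
  · rintro ⟨⟨h1, h2⟩, h3⟩
    exact ⟨h3, h1⟩

/-- the number of orders is the dimension -/
theorem card_ordSet {N : ℕ} (Q : Submodule ℂ (Fin N → ℂ)) :
    (ordSet Q).card = Module.finrank ℂ Q := by
  classical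
  have := card_ge Q (Nat.zero_le N)
  rw [tail_zero, inf_top_eq] at this
  rw [← this]
  congr 1
  ext k
  simp

open Classical in
/-- orders `< s` -/
theorem card_lt {N : ℕ} (Q : Submodule ℂ (Fin N → ℂ)) {s : ℕ} (hs : s ≤ N) :
    ((ordSet Q).filter (fun k => k < s)).card +
      Module.finrank ℂ (Q ⊓ tail N s : Submodule ℂ (Fin N → ℂ)) = Module.finrank ℂ Q := by
  rw [← card_ordSet Q, ← card_ge Q hs]
  rw [← Finset.card_filter_add_card_filter_not (s := ordSet Q) (fun k => k < s)]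
  congr 2
  ext k
  simp

/-- `T` raises the order by exactly `j` (as long as there is room) -/
def Raises {N : ℕ} (T : (Fin N → ℂ) →ₗ[ℂ] (Fin N → ℂ)) (j : ℕ) : Prop :=
  ∀ (k : ℕ) (hk : k < N) (hkj : k + j < N) (v : Fin N → ℂ), v ∈ tail N k → v ⟨k, hk⟩ ≠ 0 →
    T v ∈ tail N (k + j) ∧ (T v) ⟨k + j, hkj⟩ ≠ 0

open Classical in
/-- defect lemma -/
theorem defect {N : ℕ} (Q : Submodule ℂ (Fin N → ℂ)) (T : (Fin N → ℂ) →ₗ[ℂ] (Fin N → ℂ)) (j : ℕ)
    (hT : Raises T j) (P : Submodule ℂ (Fin N → ℂ)) (hPQ : P ≤ Q) (hPT : ∀ v ∈ P, T v ∈ Q) :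
    ((ordSet Q).filter (fun k => k + j < N ∧ k + j ∉ ordSet Q)).card +
      Module.finrank ℂ P ≤ Module.finrank ℂ Q := by
  rw [← card_ordSet Q, ← card_ordSet P]
  rw [← Finset.card_union_of_disjoint]
  · apply Finset.card_le_card
    intro k hk
    rcases Finset.mem_union.1 hk with h | h
    · exact (Finset.mem_filter.1 h).1
    · exact ordSet_mono hPQ h
  · rw [Finset.disjoint_left]
    intro k hk hkP
    obtain ⟨_, hkj, hnot⟩ := Finset.mem_filter.1 hk
    obtain ⟨v, hv, ht, hkN, hne⟩ := mem_ordSet.1 hkP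
    obtain ⟨h1, h2⟩ := hT k hkN hkj v ht hne
    exact hnot (mem_ordSet.2 ⟨T v, hPT v hv, h1, hkj, h2⟩)

open Classical in
/-- pair counting, pure combinatorics -/
theorem pairs (N n : ℕ) (O : Finset ℕ) :
    (O.filter (fun k => k < n)).card * ((Finset.Ico n N) \ O).card ≤
      ∑ j ∈ Finset.Ico 1 N, (O.filter (fun k => k + j < N ∧ k + j ∉ O)).card := by
  rw [← Finset.card_product, ← Finset.card_sigma]
  apply Finset.card_le_card_of_injOn (fun p => (⟨p.2 - p.1, p.1⟩ : Σ _ : ℕ, ℕ))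
  · rintro ⟨t, t'⟩ h
    simp only [Finset.coe_product, Set.mem_prod, Finset.mem_coe, Finset.mem_filter,
      Finset.mem_sdiff, Finset.mem_Ico] at h
    obtain ⟨⟨h1, h2⟩, ⟨h3, h4⟩, h5⟩ := h
    simp only [Finset.coe_sigma, Set.mem_sigma_iff, Finset.mem_coe, Finset.mem_filter,
      Finset.mem_Ico]
    have h6 : t + (t' - t) = t' := by omega
    refine ⟨⟨by omega, by omega⟩, h1, ?_, ?_⟩
    · rw [h6]; exact h4
    · rw [h6]; exact h5
  · rintro ⟨t, t'⟩ h ⟨s, s'⟩ h' heq
    simp only [Finset.coe_product, Set.mem_prod, Finset.mem_coe, Finset.mem_filter,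
      Finset.mem_sdiff, Finset.mem_Ico] at h h'
    simp only [Sigma.mk.injEq, heq_eq_eq] at heq
    obtain ⟨h1, h2⟩ := heq
    ext
    · exact h2
    · simp only
      omega

/-- **Pair counting inequality** for a subspace `Q` of `ℂ^{2n}` (here `N = 2n` is any `N`):
if `T j` raises orders by `j` and maps `P j ≤ Q` into `Q`, then
`ρ₀ (N - n - ρ₁) ≤ ∑_j (dim Q - dim P j)`, where `ρ₁ = dim (Q ∩ tail n)`, `ρ₀ = dim Q - ρ₁`. -/
theorem pairIneq {N n : ℕ} (hn : n ≤ N) (Q : Submodule ℂ (Fin N → ℂ))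
    (T : ℕ → (Fin N → ℂ) →ₗ[ℂ] (Fin N → ℂ)) (hT : ∀ j, Raises (T j) j)
    (P : ℕ → Submodule ℂ (Fin N → ℂ)) (hPQ : ∀ j, P j ≤ Q) (hPT : ∀ j, ∀ v ∈ P j, T j v ∈ Q) :
    (Module.finrank ℂ Q - Module.finrank ℂ (Q ⊓ tail N n : Submodule ℂ (Fin N → ℂ))) *
      (N - n - Module.finrank ℂ (Q ⊓ tail N n : Submodule ℂ (Fin N → ℂ))) ≤
    ∑ j ∈ Finset.Ico 1 N, (Module.finrank ℂ Q - Module.finrank ℂ (P j)) := by
  classical
  have h1 := card_lt Q hn
  have h2 := card_ge Q hn
  have h3 : Module.finrank ℂ Q - Module.finrank ℂ (Q ⊓ tail N n : Submodule ℂ (Fin N → ℂ)) =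
      ((ordSet Q).filter (fun k => k < n)).card := by omega
  have h4 : N - n - Module.finrank ℂ (Q ⊓ tail N n : Submodule ℂ (Fin N → ℂ)) =
      ((Finset.Ico n N) \ ordSet Q).card := by
    rw [← h2, Finset.card_sdiff, Nat.card_Ico]
    congr 2
    ext k
    simp only [Finset.mem_filter, Finset.mem_inter, Finset.mem_Ico]
    constructor
    · rintro ⟨h, h'⟩
      exact ⟨h, h', ordSet_lt h⟩
    · rintro ⟨h, h', _⟩
      exact ⟨h, h'⟩
  rw [h3, h4]
  refine (pairs N n (ordSet Q)).trans ?_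
  apply Finset.sum_le_sum
  intro j _
  have := defect Q (T j) j (hT j) (P j) (hPQ j) (hPT j)
  omega

end H883R2.ISP
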